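import Pool.Agent.Q162.GC.Ana

/-!
Project GC (helper145), job GC11: the missed points disappear independently (helper162).
-/

set_option autoImplicit false

namespace Pool.Agent.Q162.GC

open Finset Filter Topology
open Pool.Agent.Q145.GC

open scoped Classical

lemma mis_update (V : Finset ℕ) {K m : ℕ} (j : Fin K) (h : m ≤ (j : ℕ)) (a : Fin K → ℕ) (s : ℕ) :
    mis V (Function.update a j s) m = mis V a m := by
  unfold mis
  congr 1
  apply filter_congr
  intro n _
  apply forall_congr'
  intro i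
  constructor
  · intro h1 hi
    have hij : i ≠ j := by
      intro h'
      rw [h'] at hi
      omega
    have := h1 hi
    rwa [Function.update_of_ne hij] at this
  · intro h1 hi
    have hij : i ≠ j := by
      intro h'
      rw [h'] at hi
      omega
    rw [Function.update_of_ne hij]
    exact h1 hi

theorem proc (hTh : S_Th) : S_Proc := by
  intro r
  induction r with
  | zero =>
    intro lam X Y K k hX hXY hk hkK hlam hmean b ε hε
    filter_upwards with i V hV
    have e1 : joint V (Y i) (K i) (k i) b = joint V (Y i) (K i) (fun _ : Fin 1 => k i 0) (fun _ => b 0) := by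
      have h1 : k i = (fun _ : Fin 1 => k i 0) := by
        funext l
        rw [Subsingleton.elim (α := Fin 1) l 0]
      have h2 : b = (fun _ : Fin 1 => b 0) := by
        funext l
        rw [Subsingleton.elim (α := Fin 1) l 0]
      conv_lhs => rw [h1, h2]
    rw [e1]
    simp [hε.le]
  | succ r ih =>
    intro lam X Y K k hX hXY hk hkK hlam hmean b ε hε
    have hY : Tendsto Y atTop atTop := tendsto_atTop_mono hXY hX
    obtain ⟨l0, hl0⟩ : ∃ l0 : Fin (r + 2), l0 = (Fin.last r).castSucc := ⟨_, rfl⟩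
    obtain ⟨l1, hl1⟩ : ∃ l1 : Fin (r + 2), l1 = Fin.last (r + 1) := ⟨_, rfl⟩
    have hl01 : l0 ≤ l1 := by rw [hl1]; exact Fin.le_last _
    have hd := kap_lim hTh X Y (fun i => k i l0) (fun i => k i l1) hY (fun i => hk i hl01) (lam l0) (lam l1)
      (hlam l0) (hlam l1) (hmean l0) (hmean l1)
    obtain ⟨κ, hκ⟩ : ∃ κ, κ = -Real.log (lam l1 / lam l0) := ⟨_, rfl⟩
    rw [← hκ] at hd
    have hκ0 : 0 ≤ κ := by
      apply ge_of_tendsto' hd
      intro i
      exact div_nonneg (Nat.cast_nonneg _) (Real.log_natCast_nonneg _)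
    have hq : Real.exp (-κ) = lam l1 / lam l0 := by
      rw [hκ, neg_neg, Real.exp_log (div_pos (hlam l1) (hlam l0))]
    have hq1 : lam l1 / lam l0 ≤ 1 := by
      rw [← hq]
      exact Real.exp_le_one_iff.2 (by linarith)
    have hq0 : 0 ≤ lam l1 / lam l0 := (div_pos (hlam l1) (hlam l0)).le
    have hpl := pow_lim hTh (b l0) Y (fun i => k i l1 - k i l0) hY κ hκ0 hd (ε / (2 * 4 ^ (b l0))) (by positivity)
    rw [hq] at hpl
    have hih := ih (fun l => lam l.castSucc) X Y K (fun i l => k i l.castSucc) hX hXY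
      (fun i => (hk i).comp Fin.strictMono_castSucc.monotone) (fun i l => hkK i _) (fun l => hlam _)
      (fun l => hmean _) (fun l => b l.castSucc) (ε / (2 * 2 ^ (b l0))) (by positivity)
    filter_upwards [hpl, hih, hY.eventually_ge_atTop 1] with i h1 h2 h3 V hV
    have h2' := h2 V hV
    rw [mem_powersetCard] at hV
    obtain ⟨E, hE⟩ : ∃ E : (Fin (K i) → ℕ) → Prop, E = fun a => ∀ l : Fin (r + 1), mis V a (k i l.castSucc) = b l.castSucc := ⟨_, rfl⟩
    have hst := stage V (Y i) (K i) (k i l0) (k i l1) (b l0) (b l1) h3 (hk i hl01) (hkK i l1) E (by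
      intro j hj a s
      rw [hE]
      simp only
      apply forall_congr'
      intro l
      rw [mis_update V j (le_trans (hk i (show l.castSucc ≤ l0 by rw [hl0]; exact Fin.castSucc_le_castSucc_iff.2 (Fin.le_last _))) hj)])
      (by
        intro a ha
        rw [hE] at ha
        have := ha (Fin.last r)
        rw [← hl0] at this
        exact this)
      (lam l1 / lam l0) (ε / (2 * 4 ^ (b l0))) (by positivity)
      (fun H hH hHB => h1 H (hH.trans hV.1) hHB)
    have e1 : (((Om (K i) (Icc 1 (Y i))).filter (fun a => E a ∧ mis V a (k i l1) = b l1)).card : ℝ) / (Y i : ℝ) ^ (K i) =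
        joint V (Y i) (K i) (k i) b := by
      unfold joint Om
      congr 3
      ext a
      rw [mem_filter, mem_filter]
      apply and_congr_right
      intro _
      rw [hE, hl1]
      exact (Fin.forall_fin_succ' (P := fun l => mis V a (k i l) = b l)).symm
    have e2 : (((Om (K i) (Icc 1 (Y i))).filter E).card : ℝ) / (Y i : ℝ) ^ (K i) =
        joint V (Y i) (K i) (fun l : Fin (r + 1) => k i l.castSucc) (fun l => b l.castSucc) := by
      unfold joint Om
      congr 3
      ext a
      rw [mem_filter, mem_filter, hE]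
    rw [e1, e2] at hst
    rw [Fin.prod_univ_castSucc]
    have e3 : (∏ l : Fin r, bino (b l.castSucc.castSucc) (b l.castSucc.succ) (lam l.castSucc.succ / lam l.castSucc.castSucc)) =
        ∏ l : Fin r, bino (b l.castSucc.castSucc) (b l.succ.castSucc) (lam l.succ.castSucc / lam l.castSucc.castSucc) := by
      apply prod_congr rfl
      intro l _
      rw [Fin.succ_castSucc]
    rw [e3]
    have e4 : (Fin.last r).succ = l1 := by rw [hl1, Fin.succ_last]
    rw [e4, ← hl0]
    obtain ⟨P, hP⟩ : ∃ P, P = ∏ l : Fin r, bino (b l.castSucc.castSucc) (b l.succ.castSucc) (lam l.succ.castSucc / lam l.castSucc.castSucc) := ⟨_, rfl⟩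
    simp only [Fin.castSucc_zero] at h2'
    rw [← hP] at h2' ⊢
    obtain ⟨J, hJ⟩ : ∃ J, J = joint V (Y i) (K i) (fun l : Fin (r + 1) => k i l.castSucc) (fun l => b l.castSucc) := ⟨_, rfl⟩
    obtain ⟨J0, hJ0⟩ : ∃ J0, J0 = joint V (Y i) (K i) (fun _ : Fin 1 => k i 0) (fun _ => b 0) := ⟨_, rfl⟩
    obtain ⟨J1, hJ1⟩ : ∃ J1, J1 = joint V (Y i) (K i) (k i) b := ⟨_, rfl⟩
    rw [← hJ, ← hJ1] at hst
    rw [← hJ, ← hJ0] at h2'
    rw [← hJ0, ← hJ1]
    have hb := bino_abs (b l0) (b l1) (lam l1 / lam l0) hq0 hq1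
    have e5 : J1 - J0 * (P * bino (b l0) (b l1) (lam l1 / lam l0)) =
        (J1 - J * bino (b l0) (b l1) (lam l1 / lam l0)) + (J - J0 * P) * bino (b l0) (b l1) (lam l1 / lam l0) := by ring
    rw [e5]
    refine (abs_add_le _ _).trans ?_
    rw [abs_mul]
    have e6 : |J - J0 * P| * |bino (b l0) (b l1) (lam l1 / lam l0)| ≤ ε / (2 * 2 ^ (b l0)) * 2 ^ (b l0) :=
      mul_le_mul h2' hb (abs_nonneg _) (by positivity)
    have e7 : ε / (2 * 2 ^ (b l0)) * 2 ^ (b l0) = ε / 2 := by field_simp
    have e8 : 4 ^ (b l0) * (ε / (2 * 4 ^ (b l0))) = ε / 2 := by field_simp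
    rw [e7] at e6
    rw [e8] at hst
    linarith

end Pool.Agent.Q162.GC
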