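import Pool.Agent.Q162.GC.Comb
import Pool.Agent.Q145.RC.Trip

/-!
Project GC (helper145), job GC11: analytic part (helper162).
-/

set_option autoImplicit false

namespace Pool.Agent.Q162.GC

open Finset Filter Topology
open Pool.Agent.Q145.GC

open scoped Classical

lemma bonf {α β : Type} [DecidableEq α] [DecidableEq β] (H : Finset α) (A : α → Finset β) :
    ∑ n ∈ H, (A n).card ≤ (H.biUnion A).card + ∑ p ∈ H.offDiag, (A p.1 ∩ A p.2).card := by
  obtain ⟨U, hU⟩ : ∃ U, U = H.biUnion A := ⟨_, rfl⟩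
  rw [← hU]
  have h1 : ∀ n ∈ H, (A n).card = ∑ s ∈ U, if s ∈ A n then 1 else 0 := by
    intro n hn
    rw [← card_filter]
    congr 1
    ext s
    rw [mem_filter]
    exact ⟨fun h => ⟨hU ▸ mem_biUnion.2 ⟨n, hn, h⟩, h⟩, fun h => h.2⟩
  have h2 : ∀ p ∈ H.offDiag, (A p.1 ∩ A p.2).card = ∑ s ∈ U, if s ∈ A p.1 ∩ A p.2 then 1 else 0 := by
    intro p hp
    rw [← card_filter]
    congr 1
    ext s
    rw [mem_filter]
    rw [mem_offDiag] at hp
    exact ⟨fun h => ⟨hU ▸ mem_biUnion.2 ⟨p.1, hp.1, (mem_inter.1 h).1⟩, h⟩, fun h => h.2⟩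
  rw [sum_congr rfl h1, sum_congr rfl h2, sum_comm, sum_comm (s := H.offDiag), card_eq_sum_ones, ← sum_add_distrib]
  apply sum_le_sum
  intro s hs
  have h3 : ∑ n ∈ H, (if s ∈ A n then 1 else 0) = (H.filter (fun n => s ∈ A n)).card := by rw [card_filter]
  have h4 : ∑ p ∈ H.offDiag, (if s ∈ A p.1 ∩ A p.2 then 1 else 0) = (H.filter (fun n => s ∈ A n)).offDiag.card := by
    rw [← card_filter]
    congr 1
    ext p
    simp only [mem_filter, mem_offDiag, mem_inter]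
    tauto
  rw [h3, h4, offDiag_card]
  obtain ⟨t, ht⟩ : ∃ t, t = (H.filter (fun n => s ∈ A n)).card := ⟨_, rfl⟩
  rw [← ht]
  rcases Nat.lt_or_ge t 2 with h5 | h5
  · omega
  · have h6 : t * t ≥ 2 * t := Nat.mul_le_mul_right t h5
    omega

theorem ww_bd (hTh : S_Th) (B : ℕ) : ∃ C : ℝ, 0 < C ∧ ∃ Y₀ : ℕ, ∀ Y : ℕ, Y₀ ≤ Y → ∀ H ⊆ Icc 1 Y, H.card ≤ B →
    |Real.log Y * (1 - ww Y H) - H.card| ≤ C * (Real.log (Real.log Y) / Real.log Y) := by
  obtain ⟨C₁, Y₁, h1⟩ := hTh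
  obtain ⟨C₂, hC₂, Y₂, h2⟩ := Pool.Agent.Q145.RC.shifts_bd 2 (by norm_num)
  have hl : Tendsto (fun Y : ℕ => Real.log Y) atTop atTop := Real.tendsto_log_atTop.comp tendsto_natCast_atTop_atTop
  obtain ⟨Y₃, h3⟩ := eventually_atTop.1 ((hl.eventually_ge_atTop 3).and ((Real.tendsto_log_atTop.comp hl).eventually_ge_atTop 1))
  refine ⟨B * |C₁| + B ^ 2 * C₂ + 1, by positivity, max (max Y₁ Y₂) (max Y₃ 1), ?_⟩
  intro Y hY H hH hHB
  have g1 : Y₁ ≤ Y := ((le_max_left _ _).trans (le_max_left _ _)).trans hY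
  have g2 : Y₂ ≤ Y := ((le_max_right _ _).trans (le_max_left _ _)).trans hY
  have g3 : Y₃ ≤ Y := ((le_max_left _ _).trans (le_max_right _ _)).trans hY
  have g4 : 1 ≤ Y := ((le_max_right _ _).trans (le_max_right _ _)).trans hY
  obtain ⟨hL3, hl1⟩ := h3 Y g3
  simp only [Function.comp] at hl1
  obtain ⟨L, hL⟩ : ∃ L, L = Real.log (Y : ℝ) := ⟨_, rfl⟩
  rw [← hL] at hL3 hl1 ⊢
  obtain ⟨l, hll⟩ : ∃ l, l = Real.log L := ⟨_, rfl⟩
  rw [← hll] at hl1 ⊢
  have hY0 : (0 : ℝ) < Y := by exact_mod_cast g4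
  have hL0 : 0 < L := by linarith
  obtain ⟨A, hA⟩ : ∃ A : ℕ → Finset ℕ, A = fun n => (Icc 1 Y).filter (fun s => (n + s).Prime) := ⟨_, rfl⟩
  have hAth : ∀ n, ((A n).card : ℝ) = th Y n * Y := by
    intro n
    unfold th
    rw [div_mul_cancel₀ _ hY0.ne', hA]
  have hAsub : ∀ n, A n ⊆ Icc 1 Y := by
    intro n
    rw [hA]
    exact filter_subset _ _
  -- complement
  have hU : ((H.biUnion A).card : ℝ) = (1 - ww Y H) * Y := by
    have e1 : (Icc 1 Y).filter (fun s => ∀ n ∈ H, ¬ (n + s).Prime) = Icc 1 Y \ H.biUnion A := by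
      ext s
      rw [mem_filter, Finset.mem_sdiff, mem_biUnion, hA]
      simp only [mem_filter]
      constructor
      · rintro ⟨a1, a2⟩
        refine ⟨a1, ?_⟩
        rintro ⟨n, hn, _, h'⟩
        exact a2 n hn h'
      · rintro ⟨a1, a2⟩
        exact ⟨a1, fun n hn h' => a2 ⟨n, hn, a1, h'⟩⟩
    have e2 : H.biUnion A ⊆ Icc 1 Y := by
      intro s hs
      rw [mem_biUnion] at hs
      obtain ⟨n, _, h⟩ := hs
      exact hAsub n h
    unfold ww
    rw [e1, card_sdiff_of_subset e2, Nat.cast_sub (card_le_card e2)]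
    simp
    field_simp
    ring
  have hup : (1 - ww Y H) ≤ ∑ n ∈ H, th Y n := by
    have e1 : ((H.biUnion A).card : ℝ) ≤ ∑ n ∈ H, ((A n).card : ℝ) := by exact_mod_cast card_biUnion_le
    rw [hU, sum_congr rfl (fun n _ => hAth n), ← sum_mul] at e1
    exact le_of_mul_le_mul_right e1 hY0
  have hoff : ∑ p ∈ H.offDiag, ((A p.1 ∩ A p.2).card : ℝ) ≤ (B : ℝ) ^ 2 * (C₂ * (l / L ^ 2) * Y) := by
    have e1 : ∀ p ∈ H.offDiag, ((A p.1 ∩ A p.2).card : ℝ) ≤ C₂ * (l / L ^ 2) * Y := by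
      intro p hp
      rw [mem_offDiag] at hp
      obtain ⟨hp1, hp2, hp3⟩ := hp
      have e2 := h2 Y g2 {p.1, p.2} (card_pair hp3) (by
        intro n hn
        rw [mem_insert, mem_singleton] at hn
        rcases hn with rfl | rfl
        · exact (mem_Icc.1 (hH hp1)).2
        · exact (mem_Icc.1 (hH hp2)).2)
      have e3 : A p.1 ∩ A p.2 ⊆ (Icc 1 Y).filter (fun a => ∀ n ∈ ({p.1, p.2} : Finset ℕ), (n + a).Prime) := by
        intro s hs
        rw [hA, mem_inter] at hs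
        simp only [mem_filter] at hs
        rw [mem_filter]
        refine ⟨hs.1.1, ?_⟩
        intro n hn
        rw [mem_insert, mem_singleton] at hn
        rcases hn with rfl | rfl
        · exact hs.1.2
        · exact hs.2.2
      have e4 : ((A p.1 ∩ A p.2).card : ℝ) ≤ (((Icc 1 Y).filter (fun a => ∀ n ∈ ({p.1, p.2} : Finset ℕ), (n + a).Prime)).card : ℝ) := by
        exact_mod_cast card_le_card e3
      refine e4.trans ?_
      refine le_trans (le_of_eq ?_) (e2.trans (le_of_eq ?_))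
      · congr!
      · rw [← hL, ← hll, show (2 - 1 : ℕ) = 1 from rfl, pow_one]
        ring
    refine (sum_le_sum e1).trans ?_
    rw [sum_const, nsmul_eq_mul]
    apply mul_le_mul_of_nonneg_right _ (by positivity)
    have e5 : H.offDiag.card ≤ B ^ 2 := by
      rw [offDiag_card]
      calc H.card * H.card - H.card ≤ H.card * H.card := Nat.sub_le _ _
        _ ≤ B * B := Nat.mul_le_mul hHB hHB
        _ = B ^ 2 := by ring
    exact_mod_cast e5
  have hlow : ∑ n ∈ H, th Y n ≤ (1 - ww Y H) + (B : ℝ) ^ 2 * (C₂ * (l / L ^ 2)) := by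
    have e1 : ∑ n ∈ H, ((A n).card : ℝ) ≤ ((H.biUnion A).card : ℝ) + ∑ p ∈ H.offDiag, ((A p.1 ∩ A p.2).card : ℝ) := by
      exact_mod_cast bonf H A
    rw [hU, sum_congr rfl (fun n _ => hAth n), ← sum_mul] at e1
    have e2 : (∑ n ∈ H, th Y n) * Y ≤ ((1 - ww Y H) + (B : ℝ) ^ 2 * (C₂ * (l / L ^ 2))) * Y := by
      rw [add_mul]
      linarith
    exact le_of_mul_le_mul_right e2 hY0
  have hsum : |∑ n ∈ H, th Y n - H.card * (1 / L)| ≤ B * (|C₁| / L ^ 2) := by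
    have e1 : ∑ n ∈ H, th Y n - H.card * (1 / L) = ∑ n ∈ H, (th Y n - 1 / L) := by
      rw [sum_sub_distrib, sum_const, nsmul_eq_mul]
    rw [e1]
    calc |∑ n ∈ H, (th Y n - 1 / L)| ≤ ∑ n ∈ H, |th Y n - 1 / L| := abs_sum_le_sum_abs _ _
      _ ≤ ∑ n ∈ H, |C₁| / L ^ 2 := by
          apply sum_le_sum
          intro n hn
          obtain ⟨n1, n2⟩ := mem_Icc.1 (hH hn)
          have := h1 Y g1 n n1 n2
          rw [← hL] at this
          exact this.trans (div_le_div_of_nonneg_right (le_abs_self _) (by positivity))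
      _ = H.card * (|C₁| / L ^ 2) := by rw [sum_const, nsmul_eq_mul]
      _ ≤ _ := mul_le_mul_of_nonneg_right (by exact_mod_cast hHB) (by positivity)
  obtain ⟨s1, s2⟩ := abs_le.1 hsum
  have hx : |(1 - ww Y H) - H.card * (1 / L)| ≤ B * (|C₁| / L ^ 2) + (B : ℝ) ^ 2 * (C₂ * (l / L ^ 2)) := by
    have e0 : 0 ≤ (B : ℝ) ^ 2 * (C₂ * (l / L ^ 2)) := by positivity
    rw [abs_le]
    constructor <;> linarith
  have hfin : L * (1 - ww Y H) - H.card = L * ((1 - ww Y H) - H.card * (1 / L)) := by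
    field_simp
  rw [hfin, abs_mul, abs_of_pos hL0]
  calc L * |(1 - ww Y H) - H.card * (1 / L)| ≤ L * (B * (|C₁| / L ^ 2) + (B : ℝ) ^ 2 * (C₂ * (l / L ^ 2))) :=
        mul_le_mul_of_nonneg_left hx hL0.le
    _ = (B * |C₁|) * (1 / L) + (B : ℝ) ^ 2 * C₂ * (l / L) := by
        field_simp
    _ ≤ (B * |C₁|) * (l / L) + (B : ℝ) ^ 2 * C₂ * (l / L) := by
        have : 1 / L ≤ l / L := div_le_div_of_nonneg_right hl1 hL0.le
        have h0 : 0 ≤ B * |C₁| := by positivity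
        nlinarith
    _ ≤ _ := by
        have : 0 ≤ l / L := div_nonneg (by linarith) hL0.le
        nlinarith

/-- `log (1 - t) ≥ - t - 2 t²` -/
lemma log_one_sub_ge {t : ℝ} (h0 : 0 ≤ t) (h1 : t ≤ 1 / 2) : -t - 2 * t ^ 2 ≤ Real.log (1 - t) := by
  have h2 : 0 < 1 - t := by linarith
  have h3 := Real.one_sub_inv_le_log_of_pos h2
  refine le_trans ?_ h3
  have h4 : (1 - t)⁻¹ ≤ 1 + t + 2 * t ^ 2 := by
    rw [inv_le_iff_one_le_mul₀ h2]
    nlinarith [sq_nonneg t, mul_nonneg h0 h0, mul_nonneg (mul_nonneg h0 h0) h0]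
  linarith

lemma log_one_sub_le {t : ℝ} (h1 : t < 1) : Real.log (1 - t) ≤ -t := by
  have := Real.log_le_sub_one_of_pos (show 0 < 1 - t by linarith)
  linarith

/-- two values of the mean -/
theorem mean_bd (hTh : S_Th) : ∃ C : ℝ, 0 < C ∧ ∃ Y₀ : ℕ, ∀ Y : ℕ, Y₀ ≤ Y → ∀ X k d : ℕ,
    mean X Y k * Real.exp (-(d / Real.log Y * (1 + C / Real.log Y))) ≤ mean X Y (k + d) ∧
    mean X Y (k + d) ≤ mean X Y k * Real.exp (-(d / Real.log Y * (1 - C / Real.log Y))) := by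
  obtain ⟨C₁, Y₁, h1⟩ := hTh
  have hl : Tendsto (fun Y : ℕ => Real.log Y) atTop atTop := Real.tendsto_log_atTop.comp tendsto_natCast_atTop_atTop
  obtain ⟨Y₃, h3⟩ := eventually_atTop.1 (hl.eventually_ge_atTop (4 + |C₁|))
  refine ⟨|C₁| + 8, by positivity, max (max Y₁ Y₃) 1, ?_⟩
  intro Y hY X k d
  have g1 : Y₁ ≤ Y := ((le_max_left _ _).trans (le_max_left _ _)).trans hY
  have g3 : Y₃ ≤ Y := ((le_max_right _ _).trans (le_max_left _ _)).trans hY
  have g4 : 1 ≤ Y := (le_max_right _ _).trans hY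
  have hL3 := h3 Y g3
  obtain ⟨L, hL⟩ : ∃ L, L = Real.log (Y : ℝ) := ⟨_, rfl⟩
  rw [← hL] at hL3 ⊢
  have hC0 := abs_nonneg C₁
  have hL0 : 0 < L := by linarith
  have hY0 : (0 : ℝ) < Y := by exact_mod_cast g4
  have hinv : 1 / L ≤ 1 / 4 := one_div_le_one_div_of_le (by norm_num) (by linarith)
  have hinv0 : 0 < 1 / L := by positivity
  have hCL : |C₁| / L ^ 2 ≤ 1 / L := by
    rw [div_le_div_iff₀ (by positivity) hL0, one_mul, sq]
    exact mul_le_mul_of_nonneg_right (by linarith) hL0.le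
  have key : ∀ n ∈ Icc 1 Y, 0 ≤ 1 - th Y n ∧ Real.exp (-(d / L * (1 + (|C₁| + 8) / L))) ≤ (1 - th Y n) ^ d ∧
      (1 - th Y n) ^ d ≤ Real.exp (-(d / L * (1 - (|C₁| + 8) / L))) := by
    intro n hn
    obtain ⟨n1, n2⟩ := mem_Icc.1 hn
    have h4 := h1 Y g1 n n1 n2
    rw [← hL] at h4
    obtain ⟨h5, h6⟩ := abs_le.1 (h4.trans (div_le_div_of_nonneg_right (le_abs_self C₁) (by positivity)))
    have h7 : th Y n ≤ 2 / L := by
      have : (2 : ℝ) / L = 1 / L + 1 / L := by ring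
      linarith
    have h7' : th Y n ≤ 1 / 2 := by
      have : (2 : ℝ) / L = 2 * (1 / L) := by ring
      linarith
    have h8 : 0 ≤ th Y n := by
      unfold th
      positivity
    have h9 : 0 < 1 - th Y n := by linarith
    have h10 : (1 - th Y n) ^ d = Real.exp (d * Real.log (1 - th Y n)) := by
      rw [mul_comm, Real.exp_mul, Real.exp_log h9, Real.rpow_natCast]
    refine ⟨h9.le, ?_, ?_⟩
    · rw [h10]
      apply Real.exp_le_exp.2
      have h11 := log_one_sub_ge h8 h7'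
      have h12 : th Y n ^ 2 ≤ 4 / L ^ 2 := by
        have : th Y n ^ 2 ≤ (2 / L) ^ 2 := pow_le_pow_left₀ h8 h7 2
        refine this.trans (le_of_eq ?_)
        rw [div_pow]; norm_num
      have h13 : -(1 / L) - (|C₁| + 8) / L ^ 2 ≤ Real.log (1 - th Y n) := by
        have : (|C₁| + 8) / L ^ 2 = |C₁| / L ^ 2 + 2 * (4 / L ^ 2) := by ring
        linarith
      have h14 : -(d / L * (1 + (|C₁| + 8) / L)) = d * (-(1 / L) - (|C₁| + 8) / L ^ 2) := by
        field_simp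
        ring
      rw [h14]
      exact mul_le_mul_of_nonneg_left h13 (Nat.cast_nonneg _)
    · rw [h10]
      apply Real.exp_le_exp.2
      have h11 := log_one_sub_le (t := th Y n) (by linarith)
      have h13 : Real.log (1 - th Y n) ≤ -(1 / L) + (|C₁| + 8) / L ^ 2 := by
        have : (|C₁| + 8) / L ^ 2 = |C₁| / L ^ 2 + 8 / L ^ 2 := by ring
        have h0 : 0 ≤ 8 / L ^ 2 := by positivity
        linarith
      have h14 : -(d / L * (1 - (|C₁| + 8) / L)) = d * (-(1 / L) + (|C₁| + 8) / L ^ 2) := by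
        field_simp
        ring
      rw [h14]
      exact mul_le_mul_of_nonneg_left h13 (Nat.cast_nonneg _)
  unfold mean
  have hm : ∀ e : ℝ, (X : ℝ) * ((∑ n ∈ Icc 1 Y, (1 - th Y n) ^ k) / Y) * e = X * ((∑ n ∈ Icc 1 Y, (1 - th Y n) ^ k * e) / Y) := by
    intro e
    rw [← sum_mul]
    ring
  constructor
  · rw [hm]
    apply mul_le_mul_of_nonneg_left _ (Nat.cast_nonneg _)
    apply div_le_div_of_nonneg_right _ hY0.le
    apply sum_le_sum
    intro n hn
    obtain ⟨k1, k2, k3⟩ := key n hn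
    rw [pow_add]
    exact mul_le_mul_of_nonneg_left k2 (pow_nonneg k1 _)
  · rw [hm]
    apply mul_le_mul_of_nonneg_left _ (Nat.cast_nonneg _)
    apply div_le_div_of_nonneg_right _ hY0.le
    apply sum_le_sum
    intro n hn
    obtain ⟨k1, k2, k3⟩ := key n hn
    rw [pow_add]
    exact mul_le_mul_of_nonneg_left k3 (pow_nonneg k1 _)

/-- the differences of the numbers of shifts -/
theorem kap_lim (hTh : S_Th) (X Y k k' : ℕ → ℕ) (hY : Tendsto Y atTop atTop) (hk : ∀ i, k i ≤ k' i) (lam lam' : ℝ)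
    (h0 : 0 < lam) (h0' : 0 < lam') (h1 : Tendsto (fun i => mean (X i) (Y i) (k i)) atTop (𝓝 lam))
    (h2 : Tendsto (fun i => mean (X i) (Y i) (k' i)) atTop (𝓝 lam')) :
    Tendsto (fun i => ((k' i - k i : ℕ) : ℝ) / Real.log (Y i)) atTop (𝓝 (-Real.log (lam' / lam))) := by
  obtain ⟨C, hC, Y₀, h3⟩ := mean_bd hTh
  have hL : Tendsto (fun i => Real.log (Y i : ℝ)) atTop atTop :=
    Real.tendsto_log_atTop.comp (tendsto_natCast_atTop_atTop.comp hY)
  have hR : Tendsto (fun i => -Real.log (mean (X i) (Y i) (k' i) / mean (X i) (Y i) (k i))) atTop (𝓝 (-Real.log (lam' / lam))) := by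
    apply Tendsto.neg
    apply Tendsto.log (h2.div h1 h0.ne')
    positivity
  have hCL : Tendsto (fun i => C / Real.log (Y i : ℝ)) atTop (𝓝 0) := hL.const_div_atTop C
  have hlo : Tendsto (fun i => -Real.log (mean (X i) (Y i) (k' i) / mean (X i) (Y i) (k i)) / (1 + C / Real.log (Y i : ℝ)))
      atTop (𝓝 (-Real.log (lam' / lam))) := by
    have h := hR.div ((tendsto_const_nhds (x := (1 : ℝ))).add hCL) (by norm_num)
    rw [add_zero, div_one] at h
    exact h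
  have hhi : Tendsto (fun i => -Real.log (mean (X i) (Y i) (k' i) / mean (X i) (Y i) (k i)) / (1 - C / Real.log (Y i : ℝ)))
      atTop (𝓝 (-Real.log (lam' / lam))) := by
    have h := hR.div ((tendsto_const_nhds (x := (1 : ℝ))).sub hCL) (by norm_num)
    rw [sub_zero, div_one] at h
    exact h
  have hev : ∀ᶠ i in atTop, Y₀ ≤ Y i ∧ 2 * C < Real.log (Y i : ℝ) ∧ 0 < Real.log (Y i : ℝ) ∧ 0 < mean (X i) (Y i) (k i) ∧
      0 < mean (X i) (Y i) (k' i) := by
    filter_upwards [hY.eventually_ge_atTop Y₀, hL.eventually_gt_atTop (2 * C), hL.eventually_gt_atTop 0,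
      h1.eventually (lt_mem_nhds h0), h2.eventually (lt_mem_nhds h0')] with i a1 a2 a3 a4 a5
    exact ⟨a1, a2, a3, a4, a5⟩
  have hb : ∀ᶠ i in atTop, (-Real.log (mean (X i) (Y i) (k' i) / mean (X i) (Y i) (k i)) / (1 + C / Real.log (Y i : ℝ)) ≤
      ((k' i - k i : ℕ) : ℝ) / Real.log (Y i)) ∧
      (((k' i - k i : ℕ) : ℝ) / Real.log (Y i) ≤ -Real.log (mean (X i) (Y i) (k' i) / mean (X i) (Y i) (k i)) / (1 - C / Real.log (Y i : ℝ))) := by
    filter_upwards [hev] with i hi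
    obtain ⟨a1, a2, a3, a4, a5⟩ := hi
    obtain ⟨b1, b2⟩ := h3 (Y i) a1 (X i) (k i) (k' i - k i)
    rw [Nat.add_sub_cancel' (hk i)] at b1 b2
    have hc0 : 0 < C / Real.log (Y i : ℝ) := by positivity
    have hc1 : C / Real.log (Y i : ℝ) < 1 / 2 := by
      rw [div_lt_div_iff₀ a3 (by norm_num)]
      linarith
    constructor
    · rw [div_le_iff₀ (by linarith), neg_le]
      rw [Real.le_log_iff_exp_le (by positivity), le_div_iff₀ a4, mul_comm]
      exact b1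
    · rw [le_div_iff₀ (by linarith), le_neg]
      rw [Real.log_le_iff_le_exp (by positivity), div_le_iff₀ a4, mul_comm (Real.exp _)]
      exact b2
  exact tendsto_of_tendsto_of_tendsto_of_le_of_le' hlo hhi (hb.mono fun _ h => h.1) (hb.mono fun _ h => h.2)

lemma exp_lip {x y : ℝ} (hx : x ≤ 0) (hy : y ≤ 0) : |Real.exp x - Real.exp y| ≤ |x - y| := by
  have key : ∀ a b : ℝ, a ≤ 0 → b ≤ a → Real.exp a - Real.exp b ≤ a - b := by
    intro a b ha hb
    have h1 : Real.exp b = Real.exp a * Real.exp (b - a) := by rw [← Real.exp_add]; ring_nf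
    have h2 := Real.add_one_le_exp (b - a)
    have h3 : Real.exp a ≤ 1 := Real.exp_le_one_iff.2 ha
    have h4 := Real.exp_pos a
    rw [h1]
    nlinarith
  rcases le_total y x with h | h
  · rw [abs_of_nonneg (sub_nonneg.2 (Real.exp_le_exp.2 h)), abs_of_nonneg (sub_nonneg.2 h)]
    exact key x y hx h
  · rw [abs_sub_comm, abs_sub_comm x y, abs_of_nonneg (sub_nonneg.2 (Real.exp_le_exp.2 h)), abs_of_nonneg (sub_nonneg.2 h)]
    exact key y x hy h

/-- the probability that a small set is missed -/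
theorem pow_lim (hTh : S_Th) (B : ℕ) (Y d : ℕ → ℕ) (hY : Tendsto Y atTop atTop) (κ : ℝ) (hκ : 0 ≤ κ)
    (hd : Tendsto (fun i => (d i : ℝ) / Real.log (Y i)) atTop (𝓝 κ)) (ε : ℝ) (hε : 0 < ε) :
    ∀ᶠ i in atTop, ∀ H ⊆ Icc 1 (Y i), H.card ≤ B → |ww (Y i) H ^ (d i) - Real.exp (-κ) ^ H.card| ≤ ε := by
  obtain ⟨C, hC, Y₀, h3⟩ := ww_bd hTh B
  have hL : Tendsto (fun i => Real.log (Y i : ℝ)) atTop atTop :=
    Real.tendsto_log_atTop.comp (tendsto_natCast_atTop_atTop.comp hY)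
  have hδ : Tendsto (fun i => C * (Real.log (Real.log (Y i : ℝ)) / Real.log (Y i : ℝ))) atTop (𝓝 0) := by
    have h1 : Tendsto (fun x : ℝ => Real.log x / x) atTop (𝓝 0) := by
      have := Real.isLittleO_log_id_atTop.tendsto_div_nhds_zero
      simpa using this
    have := (h1.comp hL).const_mul C
    simpa using this
  have hinv : Tendsto (fun i => 1 / Real.log (Y i : ℝ)) atTop (𝓝 0) := hL.const_div_atTop 1
  have htot : Tendsto (fun i => (d i : ℝ) / Real.log (Y i) * (C * (Real.log (Real.log (Y i : ℝ)) / Real.log (Y i : ℝ))) +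
      |(d i : ℝ) / Real.log (Y i) - κ| * B + 2 * ((d i : ℝ) / Real.log (Y i)) * ((B : ℝ) + 1) ^ 2 * (1 / Real.log (Y i : ℝ)))
      atTop (𝓝 0) := by
    have e1 := hd.mul hδ
    have e2 : Tendsto (fun i => |(d i : ℝ) / Real.log (Y i) - κ| * B) atTop (𝓝 0) := by
      have := ((hd.sub_const κ).abs).mul_const (B : ℝ)
      simpa using this
    have e3 := ((hd.const_mul 2).mul_const (((B : ℝ) + 1) ^ 2)).mul hinv
    have := (e1.add e2).add e3
    simpa using this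
  filter_upwards [hY.eventually_ge_atTop Y₀, hδ.eventually (gt_mem_nhds (show (0 : ℝ) < 1 by norm_num)),
    hL.eventually_ge_atTop (4 * ((B : ℝ) + 1)), htot.eventually (gt_mem_nhds hε)] with i a1 a2 a3 a4
  intro H hH hHB
  have h4 := h3 (Y i) a1 H hH hHB
  obtain ⟨L, hLd⟩ : ∃ L, L = Real.log (Y i : ℝ) := ⟨_, rfl⟩
  rw [← hLd] at h4 a2 a3 a4
  obtain ⟨δ, hδd⟩ : ∃ δ, δ = C * (Real.log L / L) := ⟨_, rfl⟩
  rw [← hδd] at h4 a2 a4
  obtain ⟨κ', hκ'⟩ : ∃ κ', κ' = (d i : ℝ) / L := ⟨_, rfl⟩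
  rw [← hκ'] at a4
  have hB0 : (0 : ℝ) ≤ B := Nat.cast_nonneg _
  have hL0 : 0 < L := by linarith
  have hκ0 : 0 ≤ κ' := by rw [hκ']; positivity
  have hδ0 : 0 ≤ δ := (abs_nonneg _).trans h4
  obtain ⟨u, hu⟩ : ∃ u, u = 1 - ww (Y i) H := ⟨_, rfl⟩
  rw [← hu] at h4
  obtain ⟨t, ht⟩ : ∃ t, t = L * u := ⟨_, rfl⟩
  rw [← ht] at h4
  have hHB' : (H.card : ℝ) ≤ B := by exact_mod_cast hHB
  have hH0 : (0 : ℝ) ≤ H.card := Nat.cast_nonneg _
  obtain ⟨b1, b2⟩ := abs_le.1 h4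
  have hu0 : 0 ≤ u := by
    rw [hu]
    unfold ww
    rw [sub_nonneg]
    apply div_le_one_of_le₀ _ (Nat.cast_nonneg _)
    have : ((Icc 1 (Y i)).filter (fun s => ∀ n ∈ H, ¬ (n + s).Prime)).card ≤ (Icc 1 (Y i)).card := card_filter_le _ _
    rw [Nat.card_Icc, Nat.add_sub_cancel] at this
    exact_mod_cast this
  have ht0 : 0 ≤ t := by rw [ht]; positivity
  have ht1 : t ≤ B + 1 := by linarith
  have hut : u = t / L := by rw [ht]; field_simp
  have hu1 : u ≤ 1 / 2 := by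
    rw [hut, div_le_div_iff₀ hL0 (by norm_num)]
    linarith
  have hw : ww (Y i) H = 1 - u := by rw [hu]; ring
  have hpow : ww (Y i) H ^ (d i) = Real.exp (d i * Real.log (1 - u)) := by
    rw [hw, mul_comm, Real.exp_mul, Real.exp_log (by linarith), Real.rpow_natCast]
  have hpow' : Real.exp (-κ) ^ H.card = Real.exp (-(κ * H.card)) := by
    rw [← Real.exp_nat_mul]
    ring_nf
  have hlog0 : Real.log (1 - u) ≤ 0 := Real.log_nonpos (by linarith) (by linarith)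
  rw [hpow, hpow']
  have hdn : (0 : ℝ) ≤ d i := Nat.cast_nonneg _
  refine (exp_lip (mul_nonpos_of_nonneg_of_nonpos hdn hlog0) (by have := mul_nonneg hκ hH0; linarith)).trans ?_
  have hdu : (d i : ℝ) * u = κ' * t := by
    rw [hut, hκ']
    field_simp
  have hdu2 : (d i : ℝ) * u ^ 2 = κ' * t ^ 2 * (1 / L) := by
    rw [hut, hκ']
    field_simp
  have c1 : (d i : ℝ) * Real.log (1 - u) ≤ -(κ' * t) := by
    have := mul_le_mul_of_nonneg_left (log_one_sub_le (t := u) (by linarith)) hdn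
    linarith
  have c2 : -(κ' * t) - 2 * (κ' * t ^ 2 * (1 / L)) ≤ (d i : ℝ) * Real.log (1 - u) := by
    have := mul_le_mul_of_nonneg_left (log_one_sub_ge hu0 hu1) hdn
    have e1 : (d i : ℝ) * (-u - 2 * u ^ 2) = -(κ' * t) - 2 * (κ' * t ^ 2 * (1 / L)) := by
      rw [← hdu, ← hdu2]; ring
    linarith
  have c3 : |κ' * t - κ * H.card| ≤ κ' * δ + |κ' - κ| * B := by
    have e1 : κ' * t - κ * H.card = κ' * (t - H.card) + (κ' - κ) * H.card := by ring
    rw [e1]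
    refine (abs_add_le _ _).trans ?_
    rw [abs_mul, abs_mul, abs_of_nonneg hκ0, abs_of_nonneg hH0]
    exact add_le_add (mul_le_mul_of_nonneg_left h4 hκ0) (mul_le_mul_of_nonneg_left hHB' (abs_nonneg _))
  have c4 : κ' * t ^ 2 * (1 / L) ≤ κ' * ((B : ℝ) + 1) ^ 2 * (1 / L) := by
    have : t ^ 2 ≤ ((B : ℝ) + 1) ^ 2 := pow_le_pow_left₀ ht0 ht1 2
    gcongr
  obtain ⟨d1, d2⟩ := abs_le.1 c3
  have c5 : 0 ≤ κ' * t ^ 2 * (1 / L) := by positivity
  rw [abs_le]
  constructor <;> nlinarith [a4, d1, d2, c1, c2, c4, c5]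

end Pool.Agent.Q162.GC
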