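import Pool.Agent.Q145.GC.Spec2

/-!
Project GC (helper145), job GC11: combinatorial part (helper162).
-/

set_option autoImplicit false

namespace Pool.Agent.Q162.GC

open Finset
open Pool.Agent.Q145.GC

open scoped Classical

section Prod

variable {β : Type} {K : ℕ}

/-- all sequences -/
noncomputable def Om (K : ℕ) (S : Finset β) : Finset (Fin K → β) := Fintype.piFinset (fun _ : Fin K => S)

lemma mem_Om {S : Finset β} {a : Fin K → β} : a ∈ Om K S ↔ ∀ i, a i ∈ S := by
  unfold Om; exact Fintype.mem_piFinset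

lemma card_Om (S : Finset β) : (Om K S).card = S.card ^ K := by
  unfold Om; simp

/-- one coordinate -/
lemma one_coord (S : Finset β) (f : (Fin K → β) → ℝ) (φ : β → ℝ) (j : Fin K)
    (hf : ∀ a s, f (Function.update a j s) = f a) :
    (∑ a ∈ Om K S, f a * φ (a j)) * S.card = (∑ a ∈ Om K S, f a) * ∑ s ∈ S, φ s := by
  have e1 : (∑ a ∈ Om K S, f a * φ (a j)) * S.card = ∑ p ∈ Om K S ×ˢ S, f p.1 * φ (p.1 j) := by
    rw [sum_product, sum_mul]
    apply sum_congr rfl
    intro a _
    show _ = ∑ _y ∈ S, f a * φ (a j)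
    rw [sum_const, nsmul_eq_mul, mul_comm]
  have e2 : (∑ a ∈ Om K S, f a) * ∑ s ∈ S, φ s = ∑ p ∈ Om K S ×ˢ S, f p.1 * φ p.2 := by
    rw [sum_product, sum_mul]
    apply sum_congr rfl
    intro a _
    rw [mul_sum]
  rw [e1, e2]
  refine sum_nbij' (fun p => (Function.update p.1 j p.2, p.1 j)) (fun p => (Function.update p.1 j p.2, p.1 j)) ?_ ?_ ?_ ?_ ?_
  · rintro ⟨a, s⟩ hp
    rw [mem_product, mem_Om] at hp ⊢
    refine ⟨?_, hp.1 j⟩
    intro i
    rcases eq_or_ne i j with rfl | hij
    · simpa using hp.2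
    · simpa [hij] using hp.1 i
  · rintro ⟨a, s⟩ hp
    rw [mem_product, mem_Om] at hp ⊢
    refine ⟨?_, hp.1 j⟩
    intro i
    rcases eq_or_ne i j with rfl | hij
    · simpa using hp.2
    · simpa [hij] using hp.1 i
  · rintro ⟨a, s⟩ hp
    simp
  · rintro ⟨a, s⟩ hp
    simp
  · rintro ⟨a, s⟩ hp
    simp [hf]

/-- independence -/
lemma indep (S : Finset β) (φ : β → ℝ) (J : Finset (Fin K)) : ∀ f : (Fin K → β) → ℝ,
    (∀ j ∈ J, ∀ a s, f (Function.update a j s) = f a) →
    (∑ a ∈ Om K S, f a * ∏ i ∈ J, φ (a i)) * (S.card : ℝ) ^ J.card = (∑ a ∈ Om K S, f a) * (∑ s ∈ S, φ s) ^ J.card := by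
  induction J using Finset.induction_on with
  | empty => intro f _; simp
  | insert j J hj ih =>
    intro f hf
    rw [card_insert_of_notMem hj, pow_succ, pow_succ, ← mul_assoc, ← mul_assoc]
    have h1 := ih (fun a => f a * φ (a j)) (by
      intro j' hj' a s
      rw [hf j' (mem_insert_of_mem hj')]
      have : j ≠ j' := fun h => hj (h ▸ hj')
      rw [Function.update_of_ne this])
    have h2 : ∑ a ∈ Om K S, f a * ∏ i ∈ insert j J, φ (a i) = ∑ a ∈ Om K S, f a * φ (a j) * ∏ i ∈ J, φ (a i) := by
      apply sum_congr rfl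
      intro a _
      rw [prod_insert hj, mul_assoc]
    rw [h2, h1]
    have h3 := one_coord S f φ j (hf j (mem_insert_self _ _))
    calc (∑ a ∈ Om K S, f a * φ (a j)) * (∑ s ∈ S, φ s) ^ J.card * S.card =
        ((∑ a ∈ Om K S, f a * φ (a j)) * S.card) * (∑ s ∈ S, φ s) ^ J.card := by ring
      _ = _ := by rw [h3]; ring

end Prod

/-- coefficients of the inclusion-exclusion formula for exactly `b` -/
noncomputable def cf (b h : ℕ) : ℝ := if b ≤ h then (-1) ^ (h - b) * (h.choose b : ℝ) else 0

lemma cf_abs (b h : ℕ) : |cf b h| ≤ 2 ^ h := by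
  unfold cf
  split_ifs with hb
  · rw [abs_mul, abs_pow, abs_neg, abs_one, one_pow, one_mul, Nat.abs_cast]
    exact_mod_cast Nat.choose_le_two_pow h b
  · rw [abs_zero]; positivity

lemma bino_sum (N b : ℕ) (q : ℝ) :
    ∑ h ∈ range (N + 1), (N.choose h : ℝ) * (cf b h * q ^ h) = bino N b q := by
  unfold bino
  rcases lt_or_ge N b with hlt | hle
  · rw [Nat.choose_eq_zero_of_lt hlt]
    simp only [Nat.cast_zero, zero_mul]
    apply sum_eq_zero
    intro h hh
    rw [mem_range] at hh
    unfold cf
    rw [if_neg (by omega)]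
    simp
  · have h1 : ∑ h ∈ range (N + 1), (N.choose h : ℝ) * (cf b h * q ^ h) =
        ∑ h ∈ Ico b (N + 1), (N.choose h : ℝ) * (cf b h * q ^ h) := by
      symm
      apply sum_subset
      · intro h hh
        rw [mem_Ico] at hh
        rw [mem_range]
        exact hh.2
      · intro h hh hn
        rw [mem_range] at hh
        rw [mem_Ico] at hn
        unfold cf
        rw [if_neg (by omega)]
        simp
    rw [h1, sum_Ico_eq_sum_range]
    have h2 : (1 - q) ^ (N - b) = ∑ j ∈ range (N + 1 - b), ((N - b).choose j : ℝ) * (-q) ^ j := by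
      have h3 : (1 - q) = (-q) + 1 := by ring
      rw [h3, add_pow, show N + 1 - b = N - b + 1 by omega]
      apply sum_congr rfl
      intro j _
      rw [one_pow, mul_one, mul_comm]
    rw [h2, mul_sum]
    apply sum_congr rfl
    intro j hj
    rw [mem_range] at hj
    have h4 : (N.choose (b + j) : ℝ) * ((b + j).choose b : ℝ) = (N.choose b : ℝ) * ((N - b).choose j : ℝ) := by
      have := Nat.choose_mul (n := N) (k := b + j) (s := b) (by omega)
      rw [Nat.add_sub_cancel_left] at this
      exact_mod_cast this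
    unfold cf
    rw [if_pos (by omega), Nat.add_sub_cancel_left, pow_add, neg_pow q j]
    calc (N.choose (b + j) : ℝ) * ((-1) ^ j * ((b + j).choose b : ℝ) * (q ^ b * q ^ j)) =
        ((N.choose (b + j) : ℝ) * ((b + j).choose b : ℝ)) * ((-1) ^ j * (q ^ b * q ^ j)) := by ring
      _ = _ := by rw [h4]; ring

lemma bino_powerset {α : Type} (M : Finset α) (b : ℕ) (q : ℝ) :
    ∑ H ∈ M.powerset, cf b H.card * q ^ H.card = bino M.card b q := by
  rw [← bino_sum, sum_powerset_apply_card (fun h => cf b h * q ^ h)]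
  apply sum_congr rfl
  intro h _
  rw [nsmul_eq_mul]

lemma bino_one (N b : ℕ) : bino N b 1 = if N = b then 1 else 0 := by
  unfold bino
  split_ifs with h
  · subst h; simp
  · rw [sub_self]
    rcases lt_or_gt_of_ne h with h1 | h1
    · rw [Nat.choose_eq_zero_of_lt h1]; simp
    · rw [zero_pow (by omega)]; simp

lemma ind_powerset {α : Type} (M : Finset α) (b : ℕ) :
    ∑ H ∈ M.powerset, cf b H.card = if M.card = b then 1 else 0 := by
  have := bino_powerset M b 1
  simp only [one_pow, mul_one] at this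
  rw [this, bino_one]

lemma bino_abs (N b : ℕ) (q : ℝ) (h0 : 0 ≤ q) (h1 : q ≤ 1) : |bino N b q| ≤ 2 ^ N := by
  unfold bino
  rw [abs_mul, abs_mul, abs_pow, abs_pow, Nat.abs_cast, abs_of_nonneg h0, abs_of_nonneg (by linarith : (0 : ℝ) ≤ 1 - q)]
  have e1 : q ^ b ≤ 1 := pow_le_one₀ h0 h1
  have e2 : (1 - q) ^ (N - b) ≤ 1 := pow_le_one₀ (by linarith) (by linarith)
  have e3 : (N.choose b : ℝ) ≤ 2 ^ N := by exact_mod_cast Nat.choose_le_two_pow N b
  have e4 : 0 ≤ q ^ b := by positivity
  have e5 : 0 ≤ (1 - q) ^ (N - b) := pow_nonneg (by linarith) _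
  calc (N.choose b : ℝ) * q ^ b * (1 - q) ^ (N - b) ≤ 2 ^ N * 1 * 1 := by gcongr
    _ = 2 ^ N := by ring

lemma pow_sum {α : Type} (V M : Finset α) (h : M ⊆ V) (g : Finset α → ℝ) [∀ H, Decidable (H ⊆ M)] :
    ∑ H ∈ V.powerset, (if H ⊆ M then g H else 0) = ∑ H ∈ M.powerset, g H := by
  rw [← sum_filter]
  apply sum_congr _ (fun _ _ => rfl)
  ext H
  rw [mem_filter, mem_powerset, mem_powerset]
  exact ⟨fun h1 => h1.2, fun h1 => ⟨h1.trans h, h1⟩⟩

/-- the points missed by the first `m` shifts -/
noncomputable def Mi (V : Finset ℕ) {K : ℕ} (a : Fin K → ℕ) (m : ℕ) : Finset ℕ :=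
  V.filter (fun n => ∀ i : Fin K, (i : ℕ) < m → ¬ (n + a i).Prime)

lemma card_Mi (V : Finset ℕ) {K : ℕ} (a : Fin K → ℕ) (m : ℕ) : (Mi V a m).card = mis V a m := rfl

/-- proportion of the shifts missing all of `H` -/
noncomputable def ww (Y : ℕ) (H : Finset ℕ) : ℝ := (((Icc 1 Y).filter (fun s => ∀ n ∈ H, ¬ (n + s).Prime)).card : ℝ) / Y

/-- **one stage** -/
lemma stage (V : Finset ℕ) (Y K m m' B b : ℕ) (hY : 1 ≤ Y) (hm : m ≤ m') (hK : m' ≤ K) (E : (Fin K → ℕ) → Prop)
    (hE : ∀ j : Fin K, m ≤ (j : ℕ) → ∀ a s, (E (Function.update a j s) ↔ E a))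
    (hEB : ∀ a, E a → mis V a m = B) (q ε : ℝ) (hε : 0 ≤ ε)
    (hw : ∀ H ⊆ V, H.card ≤ B → |ww Y H ^ (m' - m) - q ^ H.card| ≤ ε) :
    |(((Om K (Icc 1 Y)).filter (fun a => E a ∧ mis V a m' = b)).card : ℝ) / (Y : ℝ) ^ K -
      (((Om K (Icc 1 Y)).filter E).card : ℝ) / (Y : ℝ) ^ K * bino B b q| ≤ 4 ^ B * ε := by
  have hY0 : (0 : ℝ) < Y := by exact_mod_cast hY
  have hcY : ((Icc 1 Y).card : ℝ) = Y := by simp
  obtain ⟨J, hJ⟩ : ∃ J : Finset (Fin K), J = univ.filter (fun i : Fin K => m ≤ (i : ℕ) ∧ (i : ℕ) < m') := ⟨_, rfl⟩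
  have hJc : J.card = m' - m := by
    rw [hJ]
    have : (univ.filter (fun i : Fin K => m ≤ (i : ℕ) ∧ (i : ℕ) < m')).card = (Ico m m').card := by
      apply card_bij (fun (i : Fin K) _ => (i : ℕ))
      · intro i hi
        rw [mem_filter] at hi
        rw [mem_Ico]
        exact hi.2
      · intro i _ j _ h
        exact Fin.ext h
      · intro x hx
        rw [mem_Ico] at hx
        exact ⟨⟨x, by omega⟩, by simp [hx.1, hx.2], rfl⟩
    rw [this, Nat.card_Ico]
  -- the weights
  obtain ⟨f, hf⟩ : ∃ f : Finset ℕ → (Fin K → ℕ) → ℝ, f = fun H a => if E a ∧ H ⊆ Mi V a m then 1 else 0 := ⟨_, rfl⟩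
  obtain ⟨φ, hφ⟩ : ∃ φ : Finset ℕ → ℕ → ℝ, φ = fun H s => if ∀ n ∈ H, ¬ (n + s).Prime then 1 else 0 := ⟨_, rfl⟩
  have hφs : ∀ H, ∑ s ∈ Icc 1 Y, φ H s = ww Y H * Y := by
    intro H
    rw [hφ]
    unfold ww
    rw [div_mul_cancel₀ _ hY0.ne']
    simp only
    rw [sum_boole]
  have hupd : ∀ H, ∀ j ∈ J, ∀ a s, f H (Function.update a j s) = f H a := by
    intro H j hj a s
    rw [hJ, mem_filter] at hj
    rw [hf]
    simp only
    have e1 : Mi V (Function.update a j s) m = Mi V a m := by
      unfold Mi
      apply filter_congr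
      intro n _
      apply forall_congr'
      intro i
      constructor
      · intro h hi
        have hij : i ≠ j := by
          intro h'
          rw [h'] at hi
          omega
        have := h hi
        rwa [Function.update_of_ne hij] at this
      · intro h hi
        have hij : i ≠ j := by
          intro h'
          rw [h'] at hi
          omega
        rw [Function.update_of_ne hij]
        exact h hi
    rw [e1, hE j hj.2.1 a s]
  have hind : ∀ H, ∑ a ∈ Om K (Icc 1 Y), f H a * ∏ i ∈ J, φ H (a i) = (∑ a ∈ Om K (Icc 1 Y), f H a) * ww Y H ^ (m' - m) := by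
    intro H
    have h1 := indep (Icc 1 Y) (φ H) J (f H) (hupd H)
    rw [hcY, hφs, mul_pow, ← mul_assoc, hJc] at h1
    exact mul_right_cancel₀ (by positivity) h1
  -- the first count
  have c1 : (((Om K (Icc 1 Y)).filter (fun a => E a ∧ mis V a m' = b)).card : ℝ) =
      ∑ H ∈ V.powerset, cf b H.card * ((∑ a ∈ Om K (Icc 1 Y), f H a) * ww Y H ^ (m' - m)) := by
    calc (((Om K (Icc 1 Y)).filter (fun a => E a ∧ mis V a m' = b)).card : ℝ) =
        ∑ a ∈ Om K (Icc 1 Y), ∑ H ∈ V.powerset, cf b H.card * (f H a * ∏ i ∈ J, φ H (a i)) := by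
          rw [card_filter, Nat.cast_sum]
          apply sum_congr rfl
          intro a _
          have hkey : ∀ H ∈ V.powerset, cf b H.card * (f H a * ∏ i ∈ J, φ H (a i)) =
              if E a ∧ H ⊆ Mi V a m' then cf b H.card else 0 := by
            intro H hH
            rw [mem_powerset] at hH
            have hprod : ∏ i ∈ J, φ H (a i) = if ∀ i ∈ J, ∀ n ∈ H, ¬ (n + a i).Prime then 1 else 0 := by
              rw [hφ]
              simp only
              rw [prod_boole]
              congr
            have hiff : (E a ∧ H ⊆ Mi V a m) ∧ (∀ i ∈ J, ∀ n ∈ H, ¬ (n + a i).Prime) ↔ E a ∧ H ⊆ Mi V a m' := by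
              rw [and_assoc]
              apply and_congr_right
              intro _
              constructor
              · rintro ⟨h1, h2⟩ n hn
                unfold Mi
                rw [mem_filter]
                refine ⟨hH hn, ?_⟩
                intro i hi
                rcases lt_or_ge (i : ℕ) m with h3 | h3
                · have := h1 hn
                  unfold Mi at this
                  rw [mem_filter] at this
                  exact this.2 i h3
                · exact h2 i (by rw [hJ, mem_filter]; exact ⟨mem_univ _, h3, hi⟩) n hn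
              · intro h1
                constructor
                · intro n hn
                  have := h1 hn
                  unfold Mi at this ⊢
                  rw [mem_filter] at this ⊢
                  exact ⟨this.1, fun i hi => this.2 i (by omega)⟩
                · intro i hi n hn
                  rw [hJ, mem_filter] at hi
                  have := h1 hn
                  unfold Mi at this
                  rw [mem_filter] at this
                  exact this.2 i hi.2.2
            rw [hprod, hf]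
            simp only
            by_cases h1 : E a ∧ H ⊆ Mi V a m
            · by_cases h2 : ∀ i ∈ J, ∀ n ∈ H, ¬ (n + a i).Prime
              · rw [if_pos h1, if_pos h2, if_pos (hiff.1 ⟨h1, h2⟩)]; ring
              · rw [if_neg h2, if_neg (fun h => h2 (hiff.2 h).2)]; ring
            · rw [if_neg h1, if_neg (fun h => h1 (hiff.2 h).1)]; ring
          rw [sum_congr rfl hkey]
          by_cases hEa : E a
          · simp only [hEa, true_and]
            rw [pow_sum V (Mi V a m') (filter_subset _ _), ind_powerset, card_Mi]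
            split_ifs <;> simp
          · simp only [hEa, false_and, if_false]
            simp
      _ = ∑ H ∈ V.powerset, cf b H.card * ∑ a ∈ Om K (Icc 1 Y), f H a * ∏ i ∈ J, φ H (a i) := by
          rw [sum_comm]
          apply sum_congr rfl
          intro H _
          rw [mul_sum]
      _ = _ := by
          apply sum_congr rfl
          intro H _
          rw [hind]
  -- sums of `f`
  have hfsum : ∀ g : ℕ → ℝ, ∀ a, ∑ H ∈ V.powerset, g H.card * f H a =
      if E a then ∑ H ∈ (Mi V a m).powerset, g H.card else 0 := by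
    intro g a
    rw [hf]
    by_cases hEa : E a
    · simp only [hEa, true_and, if_true, mul_ite, mul_one, mul_zero]
      rw [pow_sum V (Mi V a m) (filter_subset _ _) (fun H => g H.card)]
    · simp only [hEa, false_and, if_false, mul_zero]
      simp
  have hcE : (((Om K (Icc 1 Y)).filter E).card : ℝ) = ∑ a ∈ Om K (Icc 1 Y), if E a then 1 else 0 := by
    rw [card_filter, Nat.cast_sum]
    apply sum_congr rfl
    intro a _
    split_ifs <;> simp
  have c2 : (((Om K (Icc 1 Y)).filter E).card : ℝ) * bino B b q =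
      ∑ H ∈ V.powerset, cf b H.card * ((∑ a ∈ Om K (Icc 1 Y), f H a) * q ^ H.card) := by
    calc (((Om K (Icc 1 Y)).filter E).card : ℝ) * bino B b q = ∑ a ∈ Om K (Icc 1 Y), ∑ H ∈ V.powerset, (cf b H.card * q ^ H.card) * f H a := by
          rw [hcE, sum_mul]
          apply sum_congr rfl
          intro a _
          rw [hfsum (fun h => cf b h * q ^ h) a, bino_powerset, card_Mi]
          split_ifs with hEa
          · rw [hEB a hEa, one_mul]
          · rw [zero_mul]
      _ = ∑ H ∈ V.powerset, ∑ a ∈ Om K (Icc 1 Y), (cf b H.card * q ^ H.card) * f H a := sum_comm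
      _ = _ := by
          apply sum_congr rfl
          intro H _
          rw [← mul_sum]
          ring
  have hYK : (0 : ℝ) < (Y : ℝ) ^ K := by positivity
  have hf0 : ∀ H a, 0 ≤ f H a := by
    intro H a
    rw [hf]
    simp only
    split_ifs <;> norm_num
  rw [div_mul_eq_mul_div, div_sub_div_same, abs_div, abs_of_pos hYK, div_le_iff₀ hYK, c1, c2, ← sum_sub_distrib]
  calc |∑ H ∈ V.powerset, (cf b H.card * ((∑ a ∈ Om K (Icc 1 Y), f H a) * ww Y H ^ (m' - m)) -
        cf b H.card * ((∑ a ∈ Om K (Icc 1 Y), f H a) * q ^ H.card))| ≤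
      ∑ H ∈ V.powerset, |cf b H.card * ((∑ a ∈ Om K (Icc 1 Y), f H a) * ww Y H ^ (m' - m)) -
        cf b H.card * ((∑ a ∈ Om K (Icc 1 Y), f H a) * q ^ H.card)| := abs_sum_le_sum_abs _ _
    _ ≤ ∑ H ∈ V.powerset, ∑ a ∈ Om K (Icc 1 Y), (2 : ℝ) ^ H.card * f H a * ε := by
        apply sum_le_sum
        intro H hH
        rw [mem_powerset] at hH
        rw [← sum_mul, ← mul_sum]
        have hF : 0 ≤ ∑ a ∈ Om K (Icc 1 Y), f H a := sum_nonneg fun a _ => hf0 H a
        have e1 : cf b H.card * ((∑ a ∈ Om K (Icc 1 Y), f H a) * ww Y H ^ (m' - m)) -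
          cf b H.card * ((∑ a ∈ Om K (Icc 1 Y), f H a) * q ^ H.card) =
          cf b H.card * (∑ a ∈ Om K (Icc 1 Y), f H a) * (ww Y H ^ (m' - m) - q ^ H.card) := by ring
        rw [e1, abs_mul, abs_mul, abs_of_nonneg hF]
        rcases le_or_gt H.card B with hHB | hHB
        · apply mul_le_mul (mul_le_mul_of_nonneg_right (cf_abs _ _) hF) (hw H hH hHB) (abs_nonneg _) (by positivity)
        · have e2 : ∑ a ∈ Om K (Icc 1 Y), f H a = 0 := by
            apply sum_eq_zero
            intro a _
            rw [hf]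
            simp only
            rw [if_neg]
            rintro ⟨h1, h2⟩
            have := card_le_card h2
            rw [card_Mi, hEB a h1] at this
            omega
          rw [e2]
          simp
    _ = ∑ a ∈ Om K (Icc 1 Y), ∑ H ∈ V.powerset, (2 : ℝ) ^ H.card * f H a * ε := sum_comm
    _ = ∑ a ∈ Om K (Icc 1 Y), (if E a then ∑ H ∈ (Mi V a m).powerset, (2 : ℝ) ^ H.card else 0) * ε := by
        apply sum_congr rfl
        intro a _
        rw [← sum_mul, hfsum (fun h => (2 : ℝ) ^ h) a]
    _ ≤ ∑ a ∈ Om K (Icc 1 Y), (4 : ℝ) ^ B * ε := by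
        apply sum_le_sum
        intro a _
        apply mul_le_mul_of_nonneg_right _ hε
        split_ifs with hEa
        · have hc : (Mi V a m).card = B := by rw [card_Mi, hEB a hEa]
          calc ∑ H ∈ (Mi V a m).powerset, (2 : ℝ) ^ H.card ≤ ∑ H ∈ (Mi V a m).powerset, (2 : ℝ) ^ B := by
                apply sum_le_sum
                intro H hH
                rw [mem_powerset] at hH
                apply pow_le_pow_right₀ (by norm_num)
                rw [← hc]
                exact card_le_card hH
            _ = 4 ^ B := by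
                rw [sum_const, card_powerset, hc, nsmul_eq_mul]
                push_cast
                rw [← mul_pow]
                norm_num
        · positivity
    _ = _ := by
        rw [sum_const, card_Om, nsmul_eq_mul]
        push_cast
        rw [hcY]
        ring

end Pool.Agent.Q162.GC
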