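import Mathlib

/-!
# Convergence of double sums (second moments of approximate chaos)
-/

set_option autoImplicit false

open MeasureTheory Filter Topology Set
open scoped ComplexConjugate

namespace Pool.Agent.Q162.GC

/-- the unit interval -/
abbrev UI : Set ℝ := Set.Ioc 0 1

/-- the measure on the unit square -/
noncomputable abbrev MM : Measure (ℝ × ℝ) := (volume.restrict UI).prod (volume.restrict UI)

lemma exp_sub_le (u v M : ℝ) (hu : u ≤ M) (hv : v ≤ M) : |Real.exp u - Real.exp v| ≤ Real.exp M * |u - v| := by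
  have key : ∀ x y : ℝ, y ≤ x → x ≤ M → |Real.exp x - Real.exp y| ≤ Real.exp M * |x - y| := by
    intro x y hxy hx
    have h1 := Real.exp_le_exp.2 hxy
    rw [abs_of_nonneg (by linarith), abs_of_nonneg (by linarith)]
    have h2 : Real.exp y = Real.exp x * Real.exp (y - x) := by rw [← Real.exp_add]; congr 1; ring
    have h3 := Real.add_one_le_exp (y - x)
    have h4 : Real.exp x - Real.exp y ≤ Real.exp x * (x - y) := by
      rw [h2]
      have := mul_le_mul_of_nonneg_left h3 (Real.exp_pos x).le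
      linarith
    have h5 : Real.exp x * (x - y) ≤ Real.exp M * (x - y) :=
      mul_le_mul_of_nonneg_right (Real.exp_le_exp.2 hx) (by linarith)
    linarith
  rcases le_total v u with h | h
  · exact key u v h hu
  · rw [abs_sub_comm, abs_sub_comm u v]
    exact key v u h hv

/-- integrability of a power on `[-1, 1]` -/
lemma int_abs_rpow {s : ℝ} (hs : s < 1) : IntegrableOn (fun u : ℝ => |u| ^ (-s)) (Icc (-1) 1) := by
  have h1 : IntegrableOn (fun u : ℝ => |u| ^ (-s)) (Ioc 0 1) := by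
    have h2 := intervalIntegral.intervalIntegrable_rpow' (a := 0) (b := 1) (r := -s) (by linarith)
    rw [intervalIntegrable_iff_integrableOn_Ioc_of_le zero_le_one] at h2
    refine h2.congr_fun (fun u hu => ?_) measurableSet_Ioc
    change u ^ (-s) = |u| ^ (-s)
    rw [abs_of_pos hu.1]
  have h3 : IntegrableOn (fun u : ℝ => |u| ^ (-s)) (Ico (-1) 0) := by
    have h4 := (Measure.measurePreserving_neg (volume : Measure ℝ)).integrableOn_comp_preimage
      (MeasurableEquiv.neg ℝ).measurableEmbedding (f := fun u : ℝ => |u| ^ (-s)) (s := Ioc 0 1)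
    have h5 := h4.2 h1
    have h6 : (Neg.neg ⁻¹' (Ioc (0 : ℝ) 1)) = Ico (-1) 0 := by
      ext u
      simp only [Set.mem_preimage, Set.mem_Ioc, Set.mem_Ico]
      constructor <;> rintro ⟨h1, h2⟩ <;> constructor <;> linarith
    rw [h6] at h5
    refine h5.congr_fun (fun u _ => ?_) measurableSet_Ico
    simp [Function.comp, abs_neg]
  have h7 : Icc (-1 : ℝ) 1 ⊆ (Ico (-1) 0 ∪ Ioc 0 1) ∪ {0} := by
    intro u hu
    rcases lt_trichotomy u 0 with h | h | h
    · exact Or.inl (Or.inl ⟨hu.1, h⟩)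
    · exact Or.inr h
    · exact Or.inl (Or.inr ⟨h, hu.2⟩)
  refine IntegrableOn.mono_set ((h3.union h1).union ?_) h7
  exact integrableOn_singleton (by simp) (by simp)

/-- integrability on the square -/
lemma int_sq {s : ℝ} (hs : s < 1) : Integrable (fun z : ℝ × ℝ => |z.1 - z.2| ^ (-s)) MM := by
  have hm : Measurable fun z : ℝ × ℝ => |z.1 - z.2| ^ (-s) := by fun_prop
  refine ⟨hm.aestronglyMeasurable, ?_⟩
  rw [hasFiniteIntegral_iff_ofReal (Eventually.of_forall fun z => by positivity)]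
  rw [lintegral_prod _ hm.ennreal_ofReal.aemeasurable]
  set Q : ENNReal := ∫⁻ u in Icc (-1 : ℝ) 1, ENNReal.ofReal (|u| ^ (-s)) with hQ
  have hQf : Q < ⊤ := by
    have := (int_abs_rpow hs).2
    rwa [hasFiniteIntegral_iff_ofReal (Eventually.of_forall fun z => by positivity)] at this
  have hin : ∀ x ∈ UI, ∫⁻ y in UI, ENNReal.ofReal (|x - y| ^ (-s)) ≤ Q := by
    intro x hx
    calc ∫⁻ y in UI, ENNReal.ofReal (|x - y| ^ (-s))
        ≤ ∫⁻ y in UI, (Icc (-1 : ℝ) 1).indicator (fun u => ENNReal.ofReal (|u| ^ (-s))) (x - y) := by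
          refine setLIntegral_mono' measurableSet_Ioc fun y hy => ?_
          rw [Set.indicator_of_mem]
          exact ⟨by linarith [hx.1, hy.2], by linarith [hx.2, hy.1]⟩
      _ ≤ ∫⁻ y, (Icc (-1 : ℝ) 1).indicator (fun u => ENNReal.ofReal (|u| ^ (-s))) (x - y) :=
          setLIntegral_le_lintegral _ _
      _ = ∫⁻ u, (Icc (-1 : ℝ) 1).indicator (fun u => ENNReal.ofReal (|u| ^ (-s))) u :=
          lintegral_sub_left_eq_self _ x
      _ = Q := lintegral_indicator measurableSet_Icc _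
  calc ∫⁻ x in UI, ∫⁻ y in UI, ENNReal.ofReal (|x - y| ^ (-s)) ≤ ∫⁻ _x in UI, Q :=
        setLIntegral_mono' measurableSet_Ioc hin
    _ < ⊤ := by
        rw [setLIntegral_const]
        exact ENNReal.mul_lt_top hQf (by simp)

/-- the integrand -/
noncomputable def FF (Kf : ℝ → ℝ → ℝ) (b : ℝ) (φ : ℝ → ℂ) (z : ℝ × ℝ) : ℂ :=
  φ z.1 * conj (φ z.2) * ((Real.exp (b * Kf z.1 z.2) : ℝ) : ℂ)

lemma FF_cont {Kf : ℝ → ℝ → ℝ} (hK : Continuous fun z : ℝ × ℝ => Kf z.1 z.2) (b : ℝ) {φ : ℝ → ℂ}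
    (hφ : Continuous φ) : Continuous (FF Kf b φ) := by
  unfold FF
  exact ((hφ.comp continuous_fst).mul (Complex.continuous_conj.comp (hφ.comp continuous_snd))).mul
    (Complex.continuous_ofReal.comp (Real.continuous_exp.comp (continuous_const.mul hK)))

lemma ae_sq : ∀ᵐ z : ℝ × ℝ ∂MM, z.1 ∈ UI ∧ z.2 ∈ UI := by
  rw [MM, Measure.prod_restrict]
  exact ae_restrict_mem (measurableSet_Ioc.prod measurableSet_Ioc)

lemma ae_ne : ∀ᵐ z : ℝ × ℝ ∂MM, z.1 ≠ z.2 := by
  have hs : MeasurableSet {z : ℝ × ℝ | z.1 = z.2} := (isClosed_eq continuous_fst continuous_snd).measurableSet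
  have h : MM {z : ℝ × ℝ | z.1 = z.2} = 0 := by
    rw [Measure.measure_prod_null hs]
    refine Eventually.of_forall fun x => ?_
    have : Prod.mk x ⁻¹' {z : ℝ × ℝ | z.1 = z.2} = {x} := by
      ext y
      simp only [Set.mem_preimage, Set.mem_singleton_iff]
      exact eq_comm
    change (volume.restrict UI) (Prod.mk x ⁻¹' {z : ℝ × ℝ | z.1 = z.2}) = 0
    rw [this]
    exact measure_singleton x
  exact measure_eq_zero_iff_ae_notMem.1 h

lemma FF_int {Kf : ℝ → ℝ → ℝ} (hK : Continuous fun z : ℝ × ℝ => Kf z.1 z.2) (b : ℝ) {φ : ℝ → ℂ}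
    (hφ : Continuous φ) : Integrable (FF Kf b φ) MM := by
  rw [MM, Measure.prod_restrict]
  have h1 : IntegrableOn (FF Kf b φ) (Icc 0 1 ×ˢ Icc 0 1) (volume.prod volume) :=
    (FF_cont hK b hφ).continuousOn.integrableOn_compact (isCompact_Icc.prod isCompact_Icc)
  exact h1.mono_set (Set.prod_mono Set.Ioc_subset_Icc_self Set.Ioc_subset_Icc_self)

/-- iterated form -/
lemma FF_iter {Kf : ℝ → ℝ → ℝ} (hK : Continuous fun z : ℝ × ℝ => Kf z.1 z.2) (b : ℝ) {φ : ℝ → ℂ}
    (hφ : Continuous φ) :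
    ∫ z, FF Kf b φ z ∂MM = ∫ x in (0 : ℝ)..1, ∫ y in (0 : ℝ)..1, FF Kf b φ (x, y) := by
  rw [integral_prod _ (FF_int hK b hφ), intervalIntegral.integral_of_le zero_le_one]
  refine integral_congr_ae (Eventually.of_forall fun x => ?_)
  change _ = ∫ y in (0 : ℝ)..1, FF Kf b φ (x, y)
  rw [intervalIntegral.integral_of_le zero_le_one]

/-- the mass of `φ` on the `k`-th of `n` intervals of `[0,1]` -/
noncomputable def ph' (φ : ℝ → ℂ) (n k : ℕ) : ℂ := ∫ x in ((k : ℝ) / n)..(((k : ℝ) + 1) / n), φ x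

lemma split_int {n : ℕ} (hn : 0 < n) {g : ℝ → ℂ} (hg : Continuous g) :
    ∫ x in (0 : ℝ)..1, g x = ∑ k ∈ Finset.range n, ∫ x in ((k : ℝ) / n)..(((k : ℝ) + 1) / n), g x := by
  have h := intervalIntegral.sum_integral_adjacent_intervals (μ := volume) (f := g)
    (a := fun k : ℕ => (k : ℝ) / n) (n := n) fun k _ => hg.intervalIntegrable _ _
  have hn' : (n : ℝ) ≠ 0 := by exact_mod_cast hn.ne'
  simp only [Nat.cast_zero, zero_div, div_self hn'] at h
  rw [← h]
  refine Finset.sum_congr rfl fun k _ => ?_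
  push_cast
  rfl

/-- the double sum against the integral -/
lemma riemann {Kf : ℝ → ℝ → ℝ} (hK : Continuous fun z : ℝ × ℝ => Kf z.1 z.2) (b : ℝ) {φ : ℝ → ℂ}
    (hφ : Continuous φ) {P ε : ℝ} (hP : ∀ x ∈ Icc (0 : ℝ) 1, ‖φ x‖ ≤ P) (hε0 : 0 ≤ ε) {n n' : ℕ} (hn : 0 < n)
    (hn' : 0 < n')
    (hε : ∀ k l : ℕ, ∀ x y : ℝ, (k : ℝ) / n ≤ x → x ≤ ((k : ℝ) + 1) / n → (l : ℝ) / n' ≤ y → y ≤ ((l : ℝ) + 1) / n' →
      |Real.exp (b * Kf ((k : ℝ) / n) ((l : ℝ) / n')) - Real.exp (b * Kf x y)| ≤ ε) :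
    ‖∑ k ∈ Finset.range n, ∑ l ∈ Finset.range n',
      ph' φ n k * conj (ph' φ n' l) * ((Real.exp (b * Kf ((k : ℝ) / n) ((l : ℝ) / n')) : ℝ) : ℂ) -
      ∫ z, FF Kf b φ z ∂MM‖ ≤ P ^ 2 * ε := by
  have hn0 : (0 : ℝ) < n := by exact_mod_cast hn
  have hn0' : (0 : ℝ) < n' := by exact_mod_cast hn'
  have hP0 : 0 ≤ P := (norm_nonneg _).trans (hP 0 ⟨le_rfl, zero_le_one⟩)
  have hcont := FF_cont hK b hφ
  have hcy : ∀ x, Continuous fun y => FF Kf b φ (x, y) := fun x => hcont.comp (by fun_prop)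
  have hcx : Continuous fun x => ∫ y in (0 : ℝ)..1, FF Kf b φ (x, y) :=
    intervalIntegral.continuous_parametric_intervalIntegral_of_continuous' (f := fun x y => FF Kf b φ (x, y))
      (by exact hcont) 0 1
  have hcxl : ∀ l : ℕ, Continuous fun x => ∫ y in ((l : ℝ) / n')..(((l : ℝ) + 1) / n'), FF Kf b φ (x, y) := fun l =>
    intervalIntegral.continuous_parametric_intervalIntegral_of_continuous' (f := fun x y => FF Kf b φ (x, y))
      (by exact hcont) _ _
  have e1 : ∫ z, FF Kf b φ z ∂MM = ∑ k ∈ Finset.range n, ∑ l ∈ Finset.range n',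
      ∫ x in ((k : ℝ) / n)..(((k : ℝ) + 1) / n), ∫ y in ((l : ℝ) / n')..(((l : ℝ) + 1) / n'), FF Kf b φ (x, y) := by
    rw [FF_iter hK b hφ, split_int hn hcx]
    refine Finset.sum_congr rfl fun k _ => ?_
    rw [← intervalIntegral.integral_finsetSum fun l _ => (hcxl l).intervalIntegrable _ _]
    refine intervalIntegral.integral_congr fun x _ => ?_
    exact split_int hn' (hcy x)
  have e2 : ∀ k l : ℕ, ph' φ n k * conj (ph' φ n' l) *
      ((Real.exp (b * Kf ((k : ℝ) / n) ((l : ℝ) / n')) : ℝ) : ℂ) =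
      ∫ x in ((k : ℝ) / n)..(((k : ℝ) + 1) / n), ∫ y in ((l : ℝ) / n')..(((l : ℝ) + 1) / n'),
        φ x * conj (φ y) * ((Real.exp (b * Kf ((k : ℝ) / n) ((l : ℝ) / n')) : ℝ) : ℂ) := by
    intro k l
    unfold ph'
    have h1 : conj (∫ y in ((l : ℝ) / n')..(((l : ℝ) + 1) / n'), φ y) =
        ∫ y in ((l : ℝ) / n')..(((l : ℝ) + 1) / n'), conj (φ y) := by
      simp only [intervalIntegral, map_sub, integral_conj]
    rw [h1]
    have h2 : ∀ x, ∫ y in ((l : ℝ) / n')..(((l : ℝ) + 1) / n'),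
        φ x * conj (φ y) * ((Real.exp (b * Kf ((k : ℝ) / n) ((l : ℝ) / n')) : ℝ) : ℂ) =
        φ x * (∫ y in ((l : ℝ) / n')..(((l : ℝ) + 1) / n'), conj (φ y)) *
          ((Real.exp (b * Kf ((k : ℝ) / n) ((l : ℝ) / n')) : ℝ) : ℂ) := by
      intro x
      rw [intervalIntegral.integral_mul_const, intervalIntegral.integral_const_mul]
    simp only [h2]
    rw [intervalIntegral.integral_mul_const, intervalIntegral.integral_mul_const]
  have e3 : ∑ k ∈ Finset.range n, ∑ l ∈ Finset.range n',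
      ph' φ n k * conj (ph' φ n' l) * ((Real.exp (b * Kf ((k : ℝ) / n) ((l : ℝ) / n')) : ℝ) : ℂ) -
      ∫ z, FF Kf b φ z ∂MM = ∑ k ∈ Finset.range n, ∑ l ∈ Finset.range n',
      ∫ x in ((k : ℝ) / n)..(((k : ℝ) + 1) / n), ∫ y in ((l : ℝ) / n')..(((l : ℝ) + 1) / n'),
        (φ x * conj (φ y) * ((Real.exp (b * Kf ((k : ℝ) / n) ((l : ℝ) / n')) : ℝ) : ℂ) - FF Kf b φ (x, y)) := by
    rw [e1, ← Finset.sum_sub_distrib]
    refine Finset.sum_congr rfl fun k _ => ?_
    rw [← Finset.sum_sub_distrib]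
    refine Finset.sum_congr rfl fun l _ => ?_
    have hc2 : Continuous fun z : ℝ × ℝ =>
        φ z.1 * conj (φ z.2) * ((Real.exp (b * Kf ((k : ℝ) / n) ((l : ℝ) / n')) : ℝ) : ℂ) :=
      ((hφ.comp continuous_fst).mul (Complex.continuous_conj.comp (hφ.comp continuous_snd))).mul continuous_const
    rw [e2, ← intervalIntegral.integral_sub]
    · refine intervalIntegral.integral_congr fun x _ => ?_
      change _ - _ = _
      rw [← intervalIntegral.integral_sub]
      · exact (hc2.comp (show Continuous fun y : ℝ => ((x, y) : ℝ × ℝ) by fun_prop)).intervalIntegrable _ _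
      · exact (hcy x).intervalIntegrable _ _
    · exact (intervalIntegral.continuous_parametric_intervalIntegral_of_continuous'
        (f := fun x y => φ x * conj (φ y) * ((Real.exp (b * Kf ((k : ℝ) / n) ((l : ℝ) / n')) : ℝ) : ℂ))
        (by exact hc2) _ _).intervalIntegrable _ _
    · exact (hcxl l).intervalIntegrable _ _
  rw [e3]
  have e4 : ∀ k ∈ Finset.range n, ∀ l ∈ Finset.range n',
      ‖∫ x in ((k : ℝ) / n)..(((k : ℝ) + 1) / n), ∫ y in ((l : ℝ) / n')..(((l : ℝ) + 1) / n'),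
        (φ x * conj (φ y) * ((Real.exp (b * Kf ((k : ℝ) / n) ((l : ℝ) / n')) : ℝ) : ℂ) - FF Kf b φ (x, y))‖ ≤
      P ^ 2 * ε * (1 / n') * (1 / n) := by
    intro k hk l hl
    rw [Finset.mem_range] at hk hl
    have hd : ∀ (m j : ℕ), 0 < (m : ℝ) → |((j : ℝ) + 1) / m - (j : ℝ) / m| = 1 / m := by
      intro m j hm
      rw [← sub_div, add_sub_cancel_left, abs_of_pos (by positivity)]
    have hle : ∀ (m j : ℕ), 0 < (m : ℝ) → (j : ℝ) / m ≤ ((j : ℝ) + 1) / m := by
      intro m j hm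
      gcongr
      linarith
    have hsub : ∀ (m j : ℕ), 0 < (m : ℝ) → j < m → ∀ x, x ∈ Set.uIoc ((j : ℝ) / m) (((j : ℝ) + 1) / m) →
        (j : ℝ) / m ≤ x ∧ x ≤ ((j : ℝ) + 1) / m ∧ x ∈ Icc (0 : ℝ) 1 := by
      intro m j hm hj x hx
      rw [Set.uIoc_of_le (hle m j hm)] at hx
      have h1 : ((j : ℝ) + 1) / m ≤ 1 := by
        rw [div_le_one hm]
        exact_mod_cast hj
      have h2 : 0 ≤ (j : ℝ) / m := by positivity
      exact ⟨hx.1.le, hx.2, h2.trans hx.1.le, hx.2.trans h1⟩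
    have h1 := intervalIntegral.norm_integral_le_of_norm_le_const (a := (k : ℝ) / n) (b := ((k : ℝ) + 1) / n)
      (C := P ^ 2 * ε * (1 / n'))
      (f := fun x => ∫ y in ((l : ℝ) / n')..(((l : ℝ) + 1) / n'),
        (φ x * conj (φ y) * ((Real.exp (b * Kf ((k : ℝ) / n) ((l : ℝ) / n')) : ℝ) : ℂ) - FF Kf b φ (x, y))) ?_
    · rwa [hd n k hn0] at h1
    · intro x hx
      obtain ⟨x1, x2, x3⟩ := hsub n k hn0 hk x hx
      have h2 := intervalIntegral.norm_integral_le_of_norm_le_const (a := (l : ℝ) / n') (b := ((l : ℝ) + 1) / n')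
        (C := P ^ 2 * ε)
        (f := fun y => (φ x * conj (φ y) * ((Real.exp (b * Kf ((k : ℝ) / n) ((l : ℝ) / n')) : ℝ) : ℂ) -
          FF Kf b φ (x, y))) ?_
      · rwa [hd n' l hn0'] at h2
      · intro y hy
        obtain ⟨y1, y2, y3⟩ := hsub n' l hn0' hl y hy
        have e5 : φ x * conj (φ y) * ((Real.exp (b * Kf ((k : ℝ) / n) ((l : ℝ) / n')) : ℝ) : ℂ) - FF Kf b φ (x, y) =
            φ x * conj (φ y) *
              ((Real.exp (b * Kf ((k : ℝ) / n) ((l : ℝ) / n')) - Real.exp (b * Kf x y) : ℝ) : ℂ) := by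
          unfold FF
          push_cast
          ring
        rw [e5, norm_mul, norm_mul, RCLike.norm_conj, Complex.norm_real, Real.norm_eq_abs]
        have e6 : ‖φ x‖ * ‖φ y‖ ≤ P ^ 2 := by
          rw [sq]
          exact mul_le_mul (hP x x3) (hP y y3) (norm_nonneg _) hP0
        exact mul_le_mul e6 (hε k l x y x1 x2 y1 y2) (abs_nonneg _) (by positivity)
  calc ‖∑ k ∈ Finset.range n, ∑ l ∈ Finset.range n',
      ∫ x in ((k : ℝ) / n)..(((k : ℝ) + 1) / n), ∫ y in ((l : ℝ) / n')..(((l : ℝ) + 1) / n'),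
        (φ x * conj (φ y) * ((Real.exp (b * Kf ((k : ℝ) / n) ((l : ℝ) / n')) : ℝ) : ℂ) - FF Kf b φ (x, y))‖
      ≤ ∑ k ∈ Finset.range n, ∑ l ∈ Finset.range n', P ^ 2 * ε * (1 / n') * (1 / n) :=
        (norm_sum_le _ _).trans (Finset.sum_le_sum fun k hk =>
          (norm_sum_le _ _).trans (Finset.sum_le_sum fun l hl => e4 k hk l hl))
    _ = P ^ 2 * ε := by
        rw [Finset.sum_const, Finset.sum_const, Finset.card_range, Finset.card_range, nsmul_eq_mul, nsmul_eq_mul]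
        field_simp

/-- the double sum which is the second moment of the approximate chaos -/
noncomputable def RR' (K : ℕ → ℕ → ℝ → ℝ → ℝ) (b : ℝ) (φ : ℝ → ℂ) (J n J' n' : ℕ) : ℂ :=
  ∑ k ∈ Finset.range n, ∑ l ∈ Finset.range n',
    ph' φ n k * conj (ph' φ n' l) * ((Real.exp (b * K J J' ((k : ℝ) / n) ((l : ℝ) / n')) : ℝ) : ℂ)

theorem dc (K : ℕ → ℕ → ℝ → ℝ → ℝ) (κ C b : ℝ) (hC1 : 1 ≤ C) (hκ0 : 0 ≤ κ)
    (hsup : ∀ (J J' : ℕ) (x y : ℝ), |K J J' x y| ≤ C * (1 + min J J'))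
    (hlip : ∀ (J J' : ℕ) (x x' y y' : ℝ),
      |K J J' x y - K J J' x' y'| ≤ C * 2 ^ (min J J') * (|x - x'| + |y - y'|))
    (hlog : ∀ (J J' : ℕ) (x y : ℝ), x ≠ y → |x - y| ≤ 1 → K J J' x y ≤ κ * Real.log (1 / |x - y|) + C)
    (hlim : ∃ Ki : ℝ → ℝ → ℝ, ∀ x y : ℝ, x ≠ y →
      Tendsto (fun p : ℕ × ℕ => K p.1 p.2 x y) atTop (𝓝 (Ki x y)))
    (hb : 0 ≤ b) (hbκ : b * κ < 1) (φ : ℝ → ℂ) (hφ : Continuous φ) :
    ∃ I : ℂ, ∀ δ : ℝ, 0 < δ → ∃ J0 : ℕ, ∀ J J' n n' : ℕ, J0 ≤ J → J0 ≤ J' →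
      Real.exp ((b * C + 2) * J) ≤ n → Real.exp ((b * C + 2) * J') ≤ n' →
      ‖RR' K b φ J n J' n' - I‖ ≤ δ := by
  obtain ⟨Ki, hKi⟩ := hlim
  -- bound of `φ`
  obtain ⟨P, hP⟩ : ∃ P : ℝ, ∀ x ∈ Icc (0 : ℝ) 1, ‖φ x‖ ≤ P := by
    obtain ⟨P, hP⟩ := isCompact_Icc.exists_bound_of_continuousOn (f := φ) (s := Icc (0 : ℝ) 1) hφ.continuousOn
    exact ⟨P, hP⟩
  have hP0 : 0 ≤ P := (norm_nonneg _).trans (hP 0 ⟨le_rfl, zero_le_one⟩)
  have hC0 : 0 ≤ C := by linarith
  -- continuity of the kernels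
  have hKc : ∀ J J' : ℕ, Continuous fun z : ℝ × ℝ => K J J' z.1 z.2 := by
    intro J J'
    have hL : LipschitzWith (2 * (C * 2 ^ (min J J'))).toNNReal fun z : ℝ × ℝ => K J J' z.1 z.2 := by
      refine LipschitzWith.of_dist_le_mul fun z w => ?_
      rw [Real.coe_toNNReal _ (by positivity), Real.dist_eq]
      refine (hlip J J' z.1 w.1 z.2 w.2).trans ?_
      have h1 : |z.1 - w.1| ≤ dist z w := by rw [← Real.dist_eq]; exact le_max_left _ _
      have h2 : |z.2 - w.2| ≤ dist z w := by rw [← Real.dist_eq]; exact le_max_right _ _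
      have h3 : 0 ≤ C * 2 ^ (min J J') := by positivity
      nlinarith
    exact hL.continuous
  set F : ℕ × ℕ → ℝ × ℝ → ℂ := fun p => FF (K p.1 p.2) b φ with hF
  set I : ℂ := ∫ z, FF Ki b φ z ∂MM with hI
  -- dominated convergence
  have hconv : Tendsto (fun p : ℕ × ℕ => ∫ z, F p z ∂MM) atTop (𝓝 I) := by
    refine tendsto_integral_filter_of_dominated_convergence
      (fun z : ℝ × ℝ => P ^ 2 * Real.exp (b * C) * |z.1 - z.2| ^ (-(b * κ))) ?_ ?_ ?_ ?_
    · exact Eventually.of_forall fun p => (FF_cont (hKc p.1 p.2) b hφ).aestronglyMeasurable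
    · refine Eventually.of_forall fun p => ?_
      filter_upwards [ae_sq, ae_ne] with z hz hne
      have h0 : 0 < |z.1 - z.2| := abs_pos.2 (sub_ne_zero.2 hne)
      have h1 : |z.1 - z.2| ≤ 1 := by
        rw [abs_le]
        constructor <;> linarith [hz.1.1, hz.1.2, hz.2.1, hz.2.2]
      change ‖φ z.1 * conj (φ z.2) * ((Real.exp (b * K p.1 p.2 z.1 z.2) : ℝ) : ℂ)‖ ≤ _
      rw [norm_mul, norm_mul, RCLike.norm_conj, Complex.norm_real, Real.norm_of_nonneg (Real.exp_pos _).le]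
      have h2 : ‖φ z.1‖ * ‖φ z.2‖ ≤ P ^ 2 := by
        rw [sq]
        exact mul_le_mul (hP _ ⟨hz.1.1.le, hz.1.2⟩) (hP _ ⟨hz.2.1.le, hz.2.2⟩) (norm_nonneg _) hP0
      have h3 : Real.exp (b * K p.1 p.2 z.1 z.2) ≤ Real.exp (b * C) * |z.1 - z.2| ^ (-(b * κ)) := by
        rw [Real.rpow_def_of_pos h0, ← Real.exp_add, Real.exp_le_exp]
        have h4 := mul_le_mul_of_nonneg_left (hlog p.1 p.2 z.1 z.2 hne h1) hb
        rw [one_div, Real.log_inv] at h4
        linarith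
      calc ‖φ z.1‖ * ‖φ z.2‖ * Real.exp (b * K p.1 p.2 z.1 z.2)
          ≤ P ^ 2 * (Real.exp (b * C) * |z.1 - z.2| ^ (-(b * κ))) :=
            mul_le_mul h2 h3 (Real.exp_pos _).le (by positivity)
        _ = P ^ 2 * Real.exp (b * C) * |z.1 - z.2| ^ (-(b * κ)) := by ring
    · exact (int_sq hbκ).const_mul _
    · filter_upwards [ae_ne] with z hne
      have h1 := hKi z.1 z.2 hne
      change Tendsto (fun p : ℕ × ℕ => φ z.1 * conj (φ z.2) * ((Real.exp (b * K p.1 p.2 z.1 z.2) : ℝ) : ℂ)) atTop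
        (𝓝 (φ z.1 * conj (φ z.2) * ((Real.exp (b * Ki z.1 z.2) : ℝ) : ℂ)))
      exact Tendsto.const_mul _ ((Complex.continuous_ofReal.tendsto _).comp
        ((Real.continuous_exp.tendsto _).comp (h1.const_mul b)))
  refine ⟨I, fun δ hδ => ?_⟩
  have hev := (Metric.tendsto_atTop.1 hconv) (δ / 2) (by positivity)
  obtain ⟨⟨N1, N2⟩, hN⟩ := hev
  -- the size of the error of the Riemann sums
  set D : ℝ := P ^ 2 * (2 * b * C * Real.exp (b * C)) with hD
  have hD0 : 0 ≤ D := by positivity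
  obtain ⟨N3, hN3⟩ : ∃ N3 : ℕ, ∀ m : ℕ, N3 ≤ m → D * Real.exp (-(m : ℝ)) ≤ δ / 2 := by
    have h1 : Tendsto (fun m : ℕ => D * Real.exp (-(m : ℝ))) atTop (𝓝 (D * 0)) :=
      ((Real.tendsto_exp_neg_atTop_nhds_zero.comp tendsto_natCast_atTop_atTop)).const_mul D
    rw [mul_zero] at h1
    have h2 := h1.eventually_le_const (show (0 : ℝ) < δ / 2 by positivity)
    rw [eventually_atTop] at h2
    exact h2
  refine ⟨max (max N1 N2) N3, fun J J' n n' hJ hJ' hn hn' => ?_⟩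
  have hJ1 : N1 ≤ J := (le_max_left _ _).trans ((le_max_left _ _).trans hJ)
  have hJ2 : N2 ≤ J' := (le_max_right _ _).trans ((le_max_left _ _).trans hJ')
  set m := min J J' with hm
  have hm3 : N3 ≤ m := le_min ((le_max_right _ _).trans hJ) ((le_max_right _ _).trans hJ')
  have hnpos : 0 < n := by
    have := (Real.exp_pos ((b * C + 2) * J)).trans_le hn
    exact_mod_cast this
  have hnpos' : 0 < n' := by
    have := (Real.exp_pos ((b * C + 2) * J')).trans_le hn'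
    exact_mod_cast this
  have hn0 : (0 : ℝ) < n := by exact_mod_cast hnpos
  have hn0' : (0 : ℝ) < n' := by exact_mod_cast hnpos'
  set A : ℝ := b * C + 2 with hA
  have hA0 : 0 < A := by positivity
  have hinv : ∀ (j q : ℕ), m ≤ j → Real.exp (A * j) ≤ q → 1 / (q : ℝ) ≤ Real.exp (-(A * m)) := by
    intro j q hj hq
    have h1 : Real.exp (A * m) ≤ q := by
      refine le_trans ?_ hq
      rw [Real.exp_le_exp]
      exact mul_le_mul_of_nonneg_left (by exact_mod_cast hj) hA0.le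
    rw [Real.exp_neg, one_div]
    exact inv_anti₀ (Real.exp_pos _) h1
  have hi1 := hinv J n (min_le_left _ _) hn
  have hi2 := hinv J' n' (min_le_right _ _) hn'
  set ε : ℝ := Real.exp (b * (C * (1 + m))) * (b * (C * 2 ^ m * (2 * Real.exp (-(A * m))))) with hε
  have hε0 : 0 ≤ ε := by positivity
  have hR := riemann (hKc J J') b hφ hP hε0 hnpos hnpos' ?_
  · have hε2 : P ^ 2 * ε ≤ D * Real.exp (-(m : ℝ)) := by
      have h2m : (2 : ℝ) ^ m ≤ Real.exp m := by
        have h1 : (2 : ℝ) ≤ Real.exp 1 := by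
          have := Real.exp_one_gt_d9
          linarith
        calc (2 : ℝ) ^ m ≤ (Real.exp 1) ^ m := pow_le_pow_left₀ (by norm_num) h1 m
          _ = Real.exp m := by rw [← Real.exp_nat_mul, mul_one]
      have h3 : ε ≤ 2 * b * C * Real.exp (b * C) * Real.exp (-(m : ℝ)) := by
        calc ε = 2 * b * C * (Real.exp (b * (C * (1 + m))) * Real.exp (-(A * m))) * 2 ^ m := by rw [hε]; ring
          _ ≤ 2 * b * C * (Real.exp (b * (C * (1 + m))) * Real.exp (-(A * m))) * Real.exp m := by gcongr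
          _ = 2 * b * C * (Real.exp (b * (C * (1 + m))) * Real.exp (-(A * m)) * Real.exp m) := by ring
          _ = 2 * b * C * (Real.exp (b * C) * Real.exp (-(m : ℝ))) := by
              rw [← Real.exp_add, ← Real.exp_add, ← Real.exp_add]
              congr 2
              rw [hA]
              ring
          _ = 2 * b * C * Real.exp (b * C) * Real.exp (-(m : ℝ)) := by ring
      calc P ^ 2 * ε ≤ P ^ 2 * (2 * b * C * Real.exp (b * C) * Real.exp (-(m : ℝ))) := by gcongr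
        _ = D * Real.exp (-(m : ℝ)) := by rw [hD]; ring
    have h5 : ‖∫ z, FF (K J J') b φ z ∂MM - I‖ ≤ δ / 2 := by
      have := hN (J, J') ⟨hJ1, hJ2⟩
      rw [dist_eq_norm] at this
      exact this.le
    have h6 : RR' K b φ J n J' n' - I = (RR' K b φ J n J' n' - ∫ z, FF (K J J') b φ z ∂MM) +
        (∫ z, FF (K J J') b φ z ∂MM - I) := by ring
    rw [h6]
    refine (norm_add_le _ _).trans ?_
    have h7 : ‖RR' K b φ J n J' n' - ∫ z, FF (K J J') b φ z ∂MM‖ ≤ δ / 2 := by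
      refine le_trans ?_ (hN3 m hm3)
      exact hR.trans hε2
    linarith
  · intro k l x y hx1 hx2 hy1 hy2
    have hs : ∀ u v : ℝ, b * K J J' u v ≤ b * (C * (1 + m)) := fun u v =>
      mul_le_mul_of_nonneg_left ((le_abs_self _).trans (by
        have := hsup J J' u v
        rw [← hm] at this
        exact_mod_cast this)) hb
    refine (exp_sub_le _ _ (b * (C * (1 + m))) (hs _ _) (hs _ _)).trans ?_
    rw [hε]
    refine mul_le_mul_of_nonneg_left ?_ (Real.exp_pos _).le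
    rw [← mul_sub, abs_mul, abs_of_nonneg hb]
    refine mul_le_mul_of_nonneg_left ?_ hb
    refine (hlip J J' _ _ _ _).trans ?_
    rw [← hm]
    refine mul_le_mul_of_nonneg_left ?_ (by positivity)
    have e1 : |(k : ℝ) / n - x| ≤ 1 / n := by
      rw [abs_le]
      have : ((k : ℝ) + 1) / n = k / n + 1 / n := add_div _ _ _
      have h0 : 0 ≤ 1 / (n : ℝ) := by positivity
      constructor <;> linarith
    have e2 : |(l : ℝ) / n' - y| ≤ 1 / n' := by
      rw [abs_le]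
      have : ((l : ℝ) + 1) / n' = l / n' + 1 / n' := add_div _ _ _
      have h0 : 0 ≤ 1 / (n' : ℝ) := by positivity
      constructor <;> linarith
    linarith

end Pool.Agent.Q162.GC
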