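import Pool.Agent.Q278.GC.Stm2
import Pool.Agent.Q162.GC.DCcore

/-!
# Project GC: DC, convergence of the second moments
-/

set_option autoImplicit false

namespace Pool.Agent.Q162.GC

theorem t_DC : Pool.Agent.Q278.GC.S_DC := by
  intro K κ C b hK hb hbκ φ hφ
  exact dc K κ C b hK.C1 hK.κ0 hK.sup hK.lip hK.log hK.lim hb hbκ φ hφ

end Pool.Agent.Q162.GC
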