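import Pool.Agent.Q65.GC.K3
import Pool.Agent.Q278.GC.Stm3

/-!
Project GC (helper278), job K4: the covariances are logarithmic, in both directions.
-/

set_option autoImplicit false

namespace Pool.Agent.Q162.GC

open Filter Topology MeasureTheory Complex Finset
open Pool.Agent.Q278.MC Pool.Agent.Q278.GC Pool.Agent.Q65.GC

lemma split_abs (F : ℕ → ℕ → ℝ) {I J : ℕ} (h : I ≤ J) :
    |∑ m ∈ range J, ∑ m' ∈ range J, F m m' - ∑ m ∈ range I, ∑ m' ∈ range I, F m m'| ≤
      (∑ m ∈ range I, ∑ m' ∈ range J \ range I, |F m m'| + ∑ m' ∈ range I, ∑ m ∈ range J \ range I, |F m m'|) +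
      ∑ m ∈ range J, ∑ m' ∈ range J, (if I ≤ min m m' then |F m m'| else 0) := by
  have h1 := split_sq F h h
  have h2 := split_sq (fun m m' => -F m m') h h
  simp only [abs_neg, sum_neg_distrib] at h2
  rw [abs_le]
  constructor <;> linarith

theorem diff_le {H : ℝ → ℝ} {C0 : ℝ} (h : Dec H C0) (hH : Step H) {x y : ℝ} (hxy : x ≠ y) {N : ℕ} (J : ℕ)
    (hN2 : 1 / |x - y| < 2 ^ (N + 1)) : |kj H J J x y - kj H (min J N) (min J N) x y| ≤ 20 * C0 := by
  have h0 : 0 ≤ C0 := by linarith [h.1]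
  have hδ : 0 < |x - y| := abs_pos.2 (sub_ne_zero.2 hxy)
  obtain ⟨I, hI⟩ : ∃ I, I = min J N := ⟨_, rfl⟩
  rw [← hI]
  have h1 : I ≤ J := by omega
  rw [kj_sum hH J J, kj_sum hH I I]
  refine (split_abs (fun m m' => cv (sf (wg H) x (1 / 2 ^ m)) (sf (wg H) y (1 / 2 ^ m'))) h1).trans ?_
  have b2 : ∑ m ∈ range I, ∑ m' ∈ range J \ range I, |cv (sf (wg H) x (1 / 2 ^ m)) (sf (wg H) y (1 / 2 ^ m'))| ≤ 2 * C0 := by
    calc ∑ m ∈ range I, ∑ m' ∈ range J \ range I, |cv (sf (wg H) x (1 / 2 ^ m)) (sf (wg H) y (1 / 2 ^ m'))| ≤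
        ∑ m ∈ range I, ∑ m' ∈ range J \ range I, C0 * ((1 / 2) ^ (max m m' - min m m') * 1) :=
          sum_le_sum fun m _ => sum_le_sum fun m' _ => h.one m m' x y
      _ = C0 * ∑ m ∈ range I, ∑ m' ∈ range J \ range I, (1 / 2 : ℝ) ^ (max m m' - min m m') := by
          simp only [mul_sum, mul_one]
      _ ≤ C0 * 2 := mul_le_mul_of_nonneg_left (cross I J) h0
      _ = 2 * C0 := by ring
  have b3 : ∑ m' ∈ range I, ∑ m ∈ range J \ range I, |cv (sf (wg H) x (1 / 2 ^ m)) (sf (wg H) y (1 / 2 ^ m'))| ≤ 2 * C0 := by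
    calc ∑ m' ∈ range I, ∑ m ∈ range J \ range I, |cv (sf (wg H) x (1 / 2 ^ m)) (sf (wg H) y (1 / 2 ^ m'))| ≤
        ∑ m' ∈ range I, ∑ m ∈ range J \ range I, C0 * ((1 / 2) ^ (max m' m - min m' m) * 1) := by
          refine sum_le_sum fun m' _ => sum_le_sum fun m _ => ?_
          rw [max_comm m' m, min_comm m' m]
          exact h.one m m' x y
      _ = C0 * ∑ m' ∈ range I, ∑ m ∈ range J \ range I, (1 / 2 : ℝ) ^ (max m' m - min m' m) := by
          simp only [mul_sum, mul_one]
      _ ≤ C0 * 2 := mul_le_mul_of_nonneg_left (cross I J) h0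
      _ = 2 * C0 := by ring
  have b4 : ∑ m ∈ range J, ∑ m' ∈ range J, (if I ≤ min m m' then
      |cv (sf (wg H) x (1 / 2 ^ m)) (sf (wg H) y (1 / 2 ^ m'))| else 0) ≤ 16 * C0 := by
    rcases Nat.lt_or_ge I J with h5 | h5
    · have h6 : I = N := by omega
      refine (h.far hxy I J J).trans ?_
      rw [h6]
      have h7 : 1 < 2 ^ N * |x - y| * 2 := by
        rw [div_lt_iff₀ hδ, pow_succ] at hN2
        linarith
      have h8 : 0 < 2 ^ N * |x - y| := by positivity
      rw [div_le_iff₀ h8]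
      nlinarith [h.1]
    · have h6 : ∀ m ∈ range J, ∀ m' ∈ range J, (if I ≤ min m m' then
          |cv (sf (wg H) x (1 / 2 ^ m)) (sf (wg H) y (1 / 2 ^ m'))| else 0) = 0 := by
        intro m hm m' hm'
        rw [if_neg]
        have := mem_range.1 hm
        have := mem_range.1 hm'
        omega
      rw [sum_eq_zero fun m hm => sum_eq_zero (h6 m hm)]
      positivity
  linarith

theorem t_K4 : Pool.Agent.Q278.GC.S_K4 := by
  intro h1 h2 H hH
  obtain ⟨C0, hC0⟩ := h1 (wg H) (wg_CC hH)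
  have hD : Dec H C0 := hC0
  obtain ⟨C2, hC2, hV⟩ := h2 H hH
  have h1C := hD.1
  have h0 : 0 ≤ C0 := by linarith
  refine ⟨24 * C0 + C2 + 1, by linarith, fun J x y hle => ?_⟩
  have hpi : 0 < 1 / (2 * Real.pi ^ 2) := by positivity
  have hpi1 : 1 / (2 * Real.pi ^ 2) ≤ 1 := by
    rw [div_le_one (by positivity)]
    nlinarith [Real.pi_gt_three]
  have hl0 : 0 < Real.log 2 := Real.log_pos one_lt_two
  have hl1 : Real.log 2 ≤ 1 := by linarith [Real.log_two_lt_d9]
  -- the scale
  obtain ⟨I, hI1, hI2, hI3⟩ : ∃ I : ℕ, |kj H J J x y - kj H I I x y| ≤ 20 * C0 ∧ 2 ^ I * |x - y| ≤ 1 ∧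
      |I * Real.log 2 - Real.log (1 / max |x - y| (1 / 2 ^ J))| ≤ Real.log 2 := by
    by_cases hxy : x = y
    · subst hxy
      refine ⟨J, by simpa using h0, by simp, ?_⟩
      rw [sub_self, abs_zero, max_eq_right (by positivity), one_div_one_div, Real.log_pow, sub_self, abs_zero]
      exact hl0.le
    · have hδ : 0 < |x - y| := abs_pos.2 (sub_ne_zero.2 hxy)
      obtain ⟨N, hN1, hN2⟩ : ∃ N : ℕ, (2 : ℝ) ^ N ≤ 1 / |x - y| ∧ 1 / |x - y| < 2 ^ (N + 1) :=
        exists_nat_pow_near (by rw [le_div_iff₀ hδ]; linarith) one_lt_two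
      refine ⟨min J N, diff_le hD hH hxy J hN2, ?_, ?_⟩
      · have e1 : (2 : ℝ) ^ (min J N) ≤ 2 ^ N := pow_le_pow_right₀ (by norm_num) (min_le_right J N)
        rw [le_div_iff₀ hδ] at hN1
        exact (mul_le_mul_of_nonneg_right e1 hδ.le).trans hN1
      · rcases le_total J N with hJN | hJN
        · have e1 : |x - y| ≤ 1 / 2 ^ J := by
            have e2 : (2 : ℝ) ^ J ≤ 1 / |x - y| := (pow_le_pow_right₀ (by norm_num) hJN).trans hN1
            rw [le_div_iff₀ hδ] at e2
            rw [le_div_iff₀ (by positivity)]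
            linarith
          rw [max_eq_right e1, one_div_one_div, Real.log_pow, min_eq_left hJN, sub_self, abs_zero]
          exact hl0.le
        · rcases hJN.eq_or_lt with h5 | h5
          · subst h5
            have e1 : |x - y| ≤ 1 / 2 ^ N := by
              rw [le_div_iff₀ hδ] at hN1
              rw [le_div_iff₀ (by positivity)]
              linarith
            rw [max_eq_right e1, one_div_one_div, Real.log_pow, min_self, sub_self, abs_zero]
            exact hl0.le
          · have e1 : 1 / 2 ^ J ≤ |x - y| := by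
              have e2 : 1 / |x - y| ≤ 2 ^ J := hN2.le.trans (pow_le_pow_right₀ (by norm_num) h5)
              rw [div_le_iff₀ hδ] at e2
              rw [div_le_iff₀ (by positivity)]
              linarith
            rw [max_eq_left e1, min_eq_right hJN]
            have e3 : (N : ℝ) * Real.log 2 ≤ Real.log (1 / |x - y|) := by
              rw [← Real.log_pow]
              exact Real.log_le_log (by positivity) hN1
            have e4 : Real.log (1 / |x - y|) ≤ (N + 1) * Real.log 2 := by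
              have := Real.log_le_log (by positivity) hN2.le
              rw [Real.log_pow] at this
              push_cast at this
              exact this
            rw [abs_le]
            constructor <;> linarith
  have hlip : |kj H I I x y - kj H I I x x| ≤ 4 * C0 := by
    refine (hD.lip hH I I x x y x).trans ?_
    rw [sub_self, abs_zero, zero_add, min_self, abs_sub_comm y x]
    have e1 : 4 * C0 * 2 ^ I * |x - y| = 4 * C0 * (2 ^ I * |x - y|) := by ring
    rw [e1]
    calc 4 * C0 * (2 ^ I * |x - y|) ≤ 4 * C0 * 1 := by gcongr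
      _ = 4 * C0 := mul_one _
  rw [kj_diag H I x] at hlip
  have hv := hV I
  have e5 : (I : ℝ) * Real.log 2 / (2 * Real.pi ^ 2) = 1 / (2 * Real.pi ^ 2) * (I * Real.log 2) := by ring
  rw [e5] at hv
  have e6 : |1 / (2 * Real.pi ^ 2) * (I * Real.log 2) - 1 / (2 * Real.pi ^ 2) * Real.log (1 / max |x - y| (1 / 2 ^ J))| ≤ 1 := by
    rw [← mul_sub, abs_mul, abs_of_pos hpi]
    calc _ ≤ 1 * Real.log 2 := by gcongr
      _ ≤ 1 := by rw [one_mul]; exact hl1
  have a1 := abs_le.1 hI1
  have a2 := abs_le.1 hlip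
  have a3 := abs_le.1 hv
  have a4 := abs_le.1 e6
  rw [abs_le]
  constructor <;> linarith [a1.1, a1.2, a2.1, a2.2, a3.1, a3.2, a4.1, a4.2]

end Pool.Agent.Q162.GC
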