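import Mathlib

/-!
# Completeness of laws on the complex plane with bounded second moment
-/

set_option autoImplicit false

open MeasureTheory Filter Topology BoundedContinuousFunction

namespace Pool.Agent.Q162.GC

/-- a bounded continuous function -/
noncomputable def bc (Φ : ℂ → ℝ) (hΦ : Continuous Φ) (M : ℝ) (hM : ∀ z, |Φ z| ≤ M) : ℂ →ᵇ ℝ :=
  BoundedContinuousFunction.ofNormedAddCommGroup Φ hΦ M hM

lemma markov2 (m : Measure ℂ) [IsProbabilityMeasure m] {B : ℝ} (h1 : Integrable (fun z : ℂ => ‖z‖ ^ 2) m)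
    (h2 : ∫ z, ‖z‖ ^ 2 ∂m ≤ B) {R : ℝ} (hR : 0 < R) : m.real (Metric.closedBall 0 R)ᶜ ≤ B / R ^ 2 := by
  have h3 := mul_meas_ge_le_integral_of_nonneg (μ := m) (f := fun z : ℂ => ‖z‖ ^ 2)
    (Eventually.of_forall fun z => by positivity) h1 (R ^ 2)
  have h4 : m.real (Metric.closedBall 0 R)ᶜ ≤ m.real {z : ℂ | R ^ 2 ≤ ‖z‖ ^ 2} := by
    refine measureReal_mono fun z hz => ?_
    rw [Set.mem_compl_iff, mem_closedBall_zero_iff, not_le] at hz
    exact pow_le_pow_left₀ hR.le hz.le 2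
  rw [le_div_iff₀ (by positivity)]
  have := mul_le_mul_of_nonneg_left h4 (show 0 ≤ R ^ 2 by positivity)
  linarith

/-- truncation -/
noncomputable def tr (R : ℝ) (z : ℂ) : ℂ := ((R / max ‖z‖ R : ℝ) : ℂ) * z

lemma tr_cont {R : ℝ} (hR : 0 < R) : Continuous (tr R) := by
  unfold tr
  refine Continuous.mul ?_ continuous_id
  refine Complex.continuous_ofReal.comp ?_
  refine continuous_const.div (continuous_norm.max continuous_const) fun z => ?_
  exact (lt_of_lt_of_le hR (le_max_right _ _)).ne'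

lemma tr_norm {R : ℝ} (hR : 0 < R) (z : ℂ) : ‖tr R z‖ ≤ R := by
  have h0 : 0 < max ‖z‖ R := lt_of_lt_of_le hR (le_max_right _ _)
  unfold tr
  rw [norm_mul, Complex.norm_real, Real.norm_of_nonneg (by positivity), div_mul_eq_mul_div, div_le_iff₀ h0]
  exact mul_le_mul_of_nonneg_left (le_max_left _ _) hR.le

lemma tr_sub {R : ℝ} (hR : 0 < R) (z : ℂ) : ‖z - tr R z‖ ≤ ‖z‖ ^ 2 / R := by
  have h0 : 0 < max ‖z‖ R := lt_of_lt_of_le hR (le_max_right _ _)
  have e : z - tr R z = (((max ‖z‖ R - R) / max ‖z‖ R : ℝ) : ℂ) * z := by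
    unfold tr
    rw [sub_div, div_self h0.ne']
    push_cast
    ring
  have hn : 0 ≤ (max ‖z‖ R - R) / max ‖z‖ R := div_nonneg (by linarith [le_max_right ‖z‖ R]) h0.le
  rw [e, norm_mul, Complex.norm_real, Real.norm_of_nonneg hn, le_div_iff₀ hR, div_mul_eq_mul_div,
    div_mul_eq_mul_div, div_le_iff₀ h0]
  have hz := norm_nonneg z
  rcases le_or_gt ‖z‖ R with h | h
  · rw [max_eq_right h]
    have : 0 ≤ ‖z‖ ^ 2 * R := by positivity
    nlinarith
  · rw [max_eq_left h.le]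
    nlinarith [mul_nonneg hz hz, mul_pos (hR.trans h) hR, mul_nonneg (mul_nonneg hz hz) (sub_nonneg.2 h.le)]

lemma int_id (m : Measure ℂ) [IsProbabilityMeasure m] (h1 : Integrable (fun z : ℂ => ‖z‖ ^ 2) m) :
    Integrable (fun z : ℂ => z) m := by
  refine Integrable.mono' (h1.add (integrable_const (1 : ℝ))) aestronglyMeasurable_id
    (Eventually.of_forall fun z => ?_)
  change ‖z‖ ≤ ‖z‖ ^ 2 + 1
  nlinarith [sq_nonneg (‖z‖ - 1), norm_nonneg z]

/-- the truncation changes the mean by little -/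
lemma tr_mean (m : Measure ℂ) [IsProbabilityMeasure m] {B : ℝ} (h1 : Integrable (fun z : ℂ => ‖z‖ ^ 2) m)
    (h2 : ∫ z, ‖z‖ ^ 2 ∂m ≤ B) {R : ℝ} (hR : 0 < R) (l : ℂ →L[ℝ] ℝ) (hl : ∀ z, |l z| ≤ ‖z‖) :
    |∫ z, l (tr R z) ∂m - l (∫ z, z ∂m)| ≤ B / R := by
  have hi := int_id m h1
  have hit : Integrable (fun z => tr R z) m :=
    Integrable.mono' (integrable_const R) (tr_cont hR).aestronglyMeasurable
      (Eventually.of_forall fun z => tr_norm hR z)
  have e1 : l (∫ z, z ∂m) = ∫ z, l z ∂m := (l.integral_comp_comm hi).symm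
  have hlz : Integrable (fun z => l z) m := l.integrable_comp hi
  have hlt : Integrable (fun z => l (tr R z)) m := l.integrable_comp hit
  rw [e1, ← integral_sub hlt hlz]
  calc |∫ z, (l (tr R z) - l z) ∂m| ≤ ∫ z, ‖z‖ ^ 2 / R ∂m := by
        rw [← Real.norm_eq_abs]
        refine norm_integral_le_of_norm_le (h1.div_const R) (Eventually.of_forall fun z => ?_)
        rw [← map_sub, Real.norm_eq_abs]
        refine (hl _).trans ?_
        rw [norm_sub_rev]
        exact tr_sub hR z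
    _ = (∫ z, ‖z‖ ^ 2 ∂m) / R := integral_div _ _
    _ ≤ B / R := by gcongr

theorem core (μ : ℕ → Measure ℂ) (B : ℝ) (c : ℂ) (hp : ∀ i, IsProbabilityMeasure (μ i))
    (hB : ∀ i, Integrable (fun z => ‖z‖ ^ 2) (μ i) ∧ ∫ z, ‖z‖ ^ 2 ∂(μ i) ≤ B)
    (hc : ∀ i, ∫ z, z ∂(μ i) = c)
    (hcau : ∀ δ : ℝ, 0 < δ → ∃ N : ℕ, ∀ i j : ℕ, N ≤ i → N ≤ j → ∀ Φ : ℂ → ℝ, (∀ z, |Φ z| ≤ 1) →
      LipschitzWith 1 Φ → |∫ z, Φ z ∂(μ i) - ∫ z, Φ z ∂(μ j)| ≤ δ) :
    ∃ ν : Measure ℂ, IsProbabilityMeasure ν ∧ Integrable (fun z => ‖z‖ ^ 2) ν ∧ ∫ z, ‖z‖ ^ 2 ∂ν ≤ B ∧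
      ∫ z, z ∂ν = c ∧
      ∀ δ : ℝ, 0 < δ → ∃ N : ℕ, ∀ i : ℕ, N ≤ i → ∀ Φ : ℂ → ℝ, (∀ z, |Φ z| ≤ 1) →
        LipschitzWith 1 Φ → |∫ z, Φ z ∂(μ i) - ∫ z, Φ z ∂ν| ≤ δ := by
  have hB0 : 0 ≤ B := (integral_nonneg fun z => by positivity).trans (hB 0).2
  set P : ℕ → ProbabilityMeasure ℂ := fun i => ⟨μ i, hp i⟩ with hP
  have htight : IsTightMeasureSet {((m : ProbabilityMeasure ℂ) : Measure ℂ) | m ∈ Set.range P} := by
    rw [isTightMeasureSet_iff_exists_isCompact_measure_compl_le]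
    intro ε hε
    rcases eq_or_ne ε ⊤ with htop | htop
    · exact ⟨∅, isCompact_empty, fun m _ => by rw [htop]; exact le_top⟩
    have hε' : 0 < ε.toReal := ENNReal.toReal_pos hε.ne' htop
    set R : ℝ := Real.sqrt (B / ε.toReal) + 1 with hR
    have hR0 : 0 < R := by positivity
    refine ⟨Metric.closedBall 0 R, isCompact_closedBall _ _, ?_⟩
    rintro m ⟨_, ⟨i, rfl⟩, rfl⟩
    have h1 := markov2 (μ i) (hB i).1 (hB i).2 hR0
    have h2 : B / R ^ 2 ≤ ε.toReal := by
      rw [div_le_iff₀ (by positivity)]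
      have h3 : B / ε.toReal ≤ R ^ 2 := by
        have h4 := Real.sq_sqrt (show 0 ≤ B / ε.toReal by positivity)
        have h5 := Real.sqrt_nonneg (B / ε.toReal)
        rw [hR]
        nlinarith
      rw [div_le_iff₀ hε'] at h3
      linarith
    have h3 : (μ i) (Metric.closedBall 0 R)ᶜ ≤ ε := by
      rw [← ENNReal.ofReal_toReal htop, ← ofReal_measureReal]
      exact ENNReal.ofReal_le_ofReal (h1.trans h2)
    exact h3
  have hcomp := isCompact_closure_of_isTightMeasureSet htight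
  have hPS : Filter.map P atTop ≤ 𝓟 (closure (Set.range P)) :=
    tendsto_principal.2 (Eventually.of_forall fun i => subset_closure ⟨i, rfl⟩)
  obtain ⟨ν, -, hcl⟩ := hcomp.exists_mapClusterPt hPS
  obtain ⟨U, hU, hlim⟩ := mapClusterPt_iff_ultrafilter.1 hcl
  rw [ProbabilityMeasure.tendsto_iff_forall_integral_tendsto] at hlim
  have hlim' : ∀ (Φ : ℂ → ℝ) (_ : Continuous Φ) (M : ℝ) (_ : ∀ z, |Φ z| ≤ M),
      Tendsto (fun i => ∫ z, Φ z ∂(μ i)) U (𝓝 (∫ z, Φ z ∂(ν : Measure ℂ))) :=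
    fun Φ hΦ M hM => hlim (bc Φ hΦ M hM)
  -- the second moment
  have hmin : ∀ n : ℕ, ∫ z, min (‖z‖ ^ 2) (n : ℝ) ∂(ν : Measure ℂ) ≤ B := by
    intro n
    have h1 := hlim' (fun z => min (‖z‖ ^ 2) (n : ℝ)) ((continuous_norm.pow 2).min continuous_const) n
      fun z => by
        rw [abs_of_nonneg (le_min (by positivity) (Nat.cast_nonneg n))]
        exact min_le_right _ _
    refine le_of_tendsto h1 (Eventually.of_forall fun i => ?_)
    refine (integral_mono_of_nonneg (Eventually.of_forall fun z => le_min (by positivity) (Nat.cast_nonneg n))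
      (hB i).1 (Eventually.of_forall fun z => min_le_left _ _)).trans (hB i).2
  have hlint : ∫⁻ z, ENNReal.ofReal (‖z‖ ^ 2) ∂(ν : Measure ℂ) ≤ ENNReal.ofReal B := by
    have h1 : ∀ z : ℂ, Tendsto (fun n : ℕ => ENNReal.ofReal (min (‖z‖ ^ 2) (n : ℝ))) atTop
        (𝓝 (ENNReal.ofReal (‖z‖ ^ 2))) := by
      intro z
      refine tendsto_const_nhds.congr' ?_
      obtain ⟨N, hN⟩ := exists_nat_ge (‖z‖ ^ 2)
      filter_upwards [eventually_ge_atTop N] with n hn
      rw [min_eq_left (hN.trans (by exact_mod_cast hn))]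
    calc ∫⁻ z, ENNReal.ofReal (‖z‖ ^ 2) ∂(ν : Measure ℂ)
        = ∫⁻ z, liminf (fun n : ℕ => ENNReal.ofReal (min (‖z‖ ^ 2) (n : ℝ))) atTop ∂(ν : Measure ℂ) := by
          refine lintegral_congr fun z => ?_
          exact (h1 z).liminf_eq.symm
      _ ≤ liminf (fun n : ℕ => ∫⁻ z, ENNReal.ofReal (min (‖z‖ ^ 2) (n : ℝ)) ∂(ν : Measure ℂ)) atTop :=
          lintegral_liminf_le fun n =>
            ((continuous_norm.pow 2).min continuous_const).measurable.ennreal_ofReal
      _ ≤ ENNReal.ofReal B := by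
          refine liminf_le_of_le (by isBoundedDefault) fun b hb => ?_
          obtain ⟨n, hn⟩ := hb.exists
          refine hn.trans ?_
          rw [← ofReal_integral_eq_lintegral_ofReal]
          · exact ENNReal.ofReal_le_ofReal (hmin n)
          · exact Integrable.mono' (integrable_const (n : ℝ))
              ((continuous_norm.pow 2).min continuous_const).aestronglyMeasurable
              (Eventually.of_forall fun z => by
                rw [Real.norm_of_nonneg (le_min (by positivity) (Nat.cast_nonneg n))]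
                exact min_le_right _ _)
          · exact Eventually.of_forall fun z => le_min (by positivity) (Nat.cast_nonneg n)
  have hint : Integrable (fun z : ℂ => ‖z‖ ^ 2) (ν : Measure ℂ) := by
    refine ⟨(continuous_norm.pow 2).aestronglyMeasurable, ?_⟩
    rw [hasFiniteIntegral_iff_ofReal (Eventually.of_forall fun z => by positivity)]
    exact lt_of_le_of_lt hlint ENNReal.ofReal_lt_top
  have hintB : ∫ z, ‖z‖ ^ 2 ∂(ν : Measure ℂ) ≤ B := by
    rw [← ENNReal.ofReal_le_ofReal_iff hB0, ofReal_integral_eq_lintegral_ofReal hint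
      (Eventually.of_forall fun z => by positivity)]
    exact hlint
  -- the mean
  have hmean : ∀ l : ℂ →L[ℝ] ℝ, (∀ z, |l z| ≤ ‖z‖) → l (∫ z, z ∂(ν : Measure ℂ)) = l c := by
    intro l hl
    have key : ∀ R : ℝ, 0 < R → |l (∫ z, z ∂(ν : Measure ℂ)) - l c| ≤ 2 * B / R := by
      intro R hR
      have h1 := hlim' (fun z => l (tr R z)) (l.continuous.comp (tr_cont hR)) R
        fun z => (hl _).trans (tr_norm hR z)
      have h2 : |∫ z, l (tr R z) ∂(ν : Measure ℂ) - l c| ≤ B / R := by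
        refine le_of_tendsto ((h1.sub_const (l c)).abs) (Eventually.of_forall fun i => ?_)
        have := tr_mean (μ i) (hB i).1 (hB i).2 hR l hl
        rwa [hc i] at this
      have h3 := tr_mean (ν : Measure ℂ) hint hintB hR l hl
      have h4 : l (∫ z, z ∂(ν : Measure ℂ)) - l c = -(∫ z, l (tr R z) ∂(ν : Measure ℂ) -
        l (∫ z, z ∂(ν : Measure ℂ))) + (∫ z, l (tr R z) ∂(ν : Measure ℂ) - l c) := by ring
      rw [h4]
      refine (abs_add_le _ _).trans ?_
      rw [abs_neg]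
      have : 2 * B / R = B / R + B / R := by ring
      linarith
    by_contra hne
    have hpos : 0 < |l (∫ z, z ∂(ν : Measure ℂ)) - l c| := abs_pos.2 (sub_ne_zero.2 hne)
    set d := |l (∫ z, z ∂(ν : Measure ℂ)) - l c| with hd
    have h1 := key (4 * (B + 1) / d) (by positivity)
    have h2 : 2 * B / (4 * (B + 1) / d) = d * (2 * B / (4 * (B + 1))) := by
      field_simp
    rw [h2] at h1
    have h3 : 2 * B / (4 * (B + 1)) < 1 := by
      rw [div_lt_one (by positivity)]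
      linarith
    nlinarith
  refine ⟨(ν : Measure ℂ), inferInstance, hint, hintB, ?_, ?_⟩
  · refine Complex.ext ?_ ?_
    · exact hmean Complex.reCLM fun z => Complex.abs_re_le_norm z
    · exact hmean Complex.imCLM fun z => Complex.abs_im_le_norm z
  · intro δ hδ
    obtain ⟨N, hN⟩ := hcau δ hδ
    refine ⟨N, fun i hi Φ hΦ hL => ?_⟩
    have h1 := hlim' Φ hL.continuous 1 hΦ
    refine le_of_tendsto ((h1.const_sub (∫ z, Φ z ∂(μ i))).abs) ?_
    have h2 : ∀ᶠ j : ℕ in (U : Filter ℕ), N ≤ j := hU (eventually_ge_atTop N)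
    filter_upwards [h2] with j hj
    exact hN i j hi hj Φ hΦ hL

end Pool.Agent.Q162.GC
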