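import Pool.Agent.Q278.GC.Stm2
import Pool.Agent.Q162.GC.PRcore

/-!
# Project GC: PR, completeness
-/

set_option autoImplicit false

namespace Pool.Agent.Q162.GC

theorem t_PR : Pool.Agent.Q278.GC.S_PR := by
  intro μ B c hp hB hc hcau
  exact core μ B c hp hB hc hcau

end Pool.Agent.Q162.GC
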